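import Pool.Agent.Lib.MP_f1864b_gt.G.Defs

set_option autoImplicit false

/-!
# MP_f1864b_gt, module BA1a: the ball, the third coordinate, the action of a matrix
-/

namespace Pool.Agent.MP_f1864b_gt

open Matrix Complex Topology Set Filter

noncomputable section

theorem rho_pos : 0 < rho := by
  have h : (1 : ℝ) < Real.sqrt 5 := by
    rw [Real.lt_sqrt (by norm_num)]
    norm_num
  unfold rho
  linarith

theorem qf_lift3 (w : ℂ × ℂ) : qf (lift3 w) = ‖w.1‖ ^ 2 + ‖w.2‖ ^ 2 - rho := by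
  simp [qf, lift3]

theorem qf_smul (c : ℂ) (v : Fin 3 → ℂ) : qf (c • v) = ‖c‖ ^ 2 * qf v := by
  simp only [qf, Pi.smul_apply, smul_eq_mul, norm_mul]
  ring

theorem mem_Ball_iff {w : ℂ × ℂ} : w ∈ Ball ↔ qf (lift3 w) < 0 := by
  rw [qf_lift3]
  simp only [Ball, Set.mem_ofPred_eq]
  constructor <;> intro h <;> linarith

theorem isOpen_Ball : IsOpen Ball := by
  unfold Ball
  exact isOpen_lt (by fun_prop) continuous_const

theorem convex_Ball : Convex ℝ Ball := by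
  have h1 : ConvexOn ℝ Set.univ (fun w : ℂ × ℂ => ‖w.1‖ ^ 2) := by
    have h := ((convexOn_univ_norm (E := ℂ)).pow (fun x _ => norm_nonneg x) 2).comp_linearMap
      (LinearMap.fst ℝ ℂ ℂ)
    simpa [Function.comp_def] using h
  have h2 : ConvexOn ℝ Set.univ (fun w : ℂ × ℂ => ‖w.2‖ ^ 2) := by
    have h := ((convexOn_univ_norm (E := ℂ)).pow (fun x _ => norm_nonneg x) 2).comp_linearMap
      (LinearMap.snd ℝ ℂ ℂ)
    simpa [Function.comp_def] using h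
  have h := (h1.add h2).convex_lt rho
  have he : {x : ℂ × ℂ | x ∈ (Set.univ : Set (ℂ × ℂ)) ∧
      ((fun w : ℂ × ℂ => ‖w.1‖ ^ 2) + fun w : ℂ × ℂ => ‖w.2‖ ^ 2) x < rho} = Ball := by
    ext x
    simp [Ball]
  rw [← he]
  exact h

theorem neg_mem_Ball {w : ℂ × ℂ} (hw : w ∈ Ball) : -w ∈ Ball := by
  simpa [Ball] using hw

theorem cw_mem_Ball {w : ℂ × ℂ} (hw : w ∈ Ball) : cw w ∈ Ball := by
  simpa [Ball, cw] using hw

/-- the third coordinate does not vanish -/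
theorem third_ne_zero {g : Matrix (Fin 3) (Fin 3) ℂ} (hg : ∀ v, qf (g *ᵥ v) = qf v)
    {w : ℂ × ℂ} (hw : w ∈ Ball) :
    (g *ᵥ lift3 w) 2 ≠ 0 := by
  intro h
  have h1 : qf (g *ᵥ lift3 w) < 0 := by
    rw [hg]
    exact mem_Ball_iff.1 hw
  have h2 : 0 ≤ qf (g *ᵥ lift3 w) := by
    unfold qf
    rw [h, norm_zero]
    have := sq_nonneg ‖(g *ᵥ lift3 w) 0‖
    have := sq_nonneg ‖(g *ᵥ lift3 w) 1‖
    nlinarith
  linarith

theorem mulVec_lift3 {g : Matrix (Fin 3) (Fin 3) ℂ} (hg : ∀ v, qf (g *ᵥ v) = qf v)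
    {w : ℂ × ℂ} (hw : w ∈ Ball) :
    g *ᵥ lift3 w = (g *ᵥ lift3 w) 2 • lift3 (act g w) := by
  have h := third_ne_zero hg hw
  generalize hu : g *ᵥ lift3 w = u at h
  have ha : act g w = (u 0 / u 2, u 1 / u 2) := by
    unfold act
    rw [hu]
  rw [ha]
  funext i
  fin_cases i
  · simp [lift3, mul_div_cancel₀ _ h]
  · simp [lift3, mul_div_cancel₀ _ h]
  · simp [lift3]

theorem act_mem_Ball {g : Matrix (Fin 3) (Fin 3) ℂ} (hg : ∀ v, qf (g *ᵥ v) = qf v)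
    {w : ℂ × ℂ} (hw : w ∈ Ball) :
    act g w ∈ Ball := by
  rw [mem_Ball_iff]
  have h1 : qf (g *ᵥ lift3 w) < 0 := by
    rw [hg]
    exact mem_Ball_iff.1 hw
  rw [mulVec_lift3 hg hw, qf_smul] at h1
  have h2 : 0 < ‖(g *ᵥ lift3 w) 2‖ ^ 2 := by
    have := norm_pos_iff.2 (third_ne_zero hg hw)
    positivity
  by_contra h3
  push Not at h3
  have := mul_nonneg h2.le h3
  linarith

theorem act_mul (g : Matrix (Fin 3) (Fin 3) ℂ) {h : Matrix (Fin 3) (Fin 3) ℂ}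
    (hh : ∀ v, qf (h *ᵥ v) = qf v) {w : ℂ × ℂ} (hw : w ∈ Ball) :
    act (g * h) w = act g (act h w) := by
  have h0 := third_ne_zero hh hw
  have h1 : (g * h) *ᵥ lift3 w = (h *ᵥ lift3 w) 2 • (g *ᵥ lift3 (act h w)) := by
    rw [← Matrix.mulVec_mulVec, mulVec_lift3 hh hw, Matrix.mulVec_smul]
    congr 1
    simp [lift3]
  unfold act
  rw [h1]
  simp only [Pi.smul_apply, smul_eq_mul]
  rw [mul_div_mul_left _ _ h0, mul_div_mul_left _ _ h0]
  rfl

theorem act_one (w : ℂ × ℂ) : act 1 w = w := by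
  simp [act, lift3]

theorem act_zG (w : ℂ × ℂ) : act zG.1 w = -w := by
  have h : zG.1 = Matrix.diagonal ![-1, -1, 1] := rfl
  unfold act
  rw [h]
  ext <;> simp [Matrix.mulVec_diagonal, lift3]

end

end Pool.Agent.MP_f1864b_gt
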