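import Pool.Agent.Lib.MP_f1864b_gt.G.BA2

set_option autoImplicit false

/-!
# MP_f1864b_gt, module G/BA1b: conjugation, unitarity, smoothness of the action
-/

namespace Pool.Agent.MP_f1864b_gt

open Matrix Complex Topology Set Filter
open scoped Manifold ContDiff

noncomputable section

private theorem ba1b_conj_mulVec (g : Matrix (Fin 3) (Fin 3) ℂ) (v : Fin 3 → ℂ) :
    (g.map (starRingEnd ℂ)) *ᵥ (fun i => starRingEnd ℂ (v i)) = fun i => starRingEnd ℂ ((g *ᵥ v) i) := by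
  funext i
  simp only [Matrix.mulVec, dotProduct, Matrix.map_apply, map_sum, map_mul]

private theorem ba1b_lift3_cw (w : ℂ × ℂ) : lift3 (cw w) = fun i => starRingEnd ℂ (lift3 w i) := by
  funext i
  fin_cases i <;> simp [lift3, cw]

theorem cw_act (g : Matrix (Fin 3) (Fin 3) ℂ) (w : ℂ × ℂ) :
    cw (act g w) = act (g.map (starRingEnd ℂ)) (cw w) := by
  rw [act, act, ba1b_lift3_cw, ba1b_conj_mulVec]
  simp only [cw, map_div₀]

theorem conjG_val (g : GL (Fin 3) ℂ) : (conjG g).1 = g.1.map (starRingEnd ℂ) := rfl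

private theorem ba1b_qf_conj (v : Fin 3 → ℂ) : qf (fun i => starRingEnd ℂ (v i)) = qf v := by
  simp only [qf, RCLike.norm_conj]

theorem unitary_conj {g : Matrix (Fin 3) (Fin 3) ℂ} (hg : ∀ v, qf (g *ᵥ v) = qf v) :
    ∀ v, qf ((g.map (starRingEnd ℂ)) *ᵥ v) = qf v := by
  intro v
  have h1 := ba1b_conj_mulVec g (fun i => starRingEnd ℂ (v i))
  simp only [Complex.conj_conj] at h1
  have h2 : (fun i => v i) = v := rfl
  rw [h2] at h1
  rw [h1, ba1b_qf_conj, hg, ba1b_qf_conj]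

theorem unitary_zG : ∀ v, qf (zG.1 *ᵥ v) = qf v := by
  intro v
  have h : zG.1 *ᵥ v = fun i => (![-1, -1, 1] : Fin 3 → ℂ) i * v i := by
    funext i
    exact Matrix.mulVec_diagonal _ _ _
  rw [h]
  simp [qf]

private theorem ba1b_contDiff_coord (g : Matrix (Fin 3) (Fin 3) ℂ) (i : Fin 3) :
    ContDiff ℝ ∞ fun w : ℂ × ℂ => (g *ᵥ lift3 w) i := by
  have h : (fun w : ℂ × ℂ => (g *ᵥ lift3 w) i) = fun w => ba2_lin g i w + g i 2 :=
    funext (ba2_coord g i)
  rw [h]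
  exact ((ba2_lin g i).restrictScalars ℝ).contDiff.add contDiff_const

theorem contDiffOn_act {g : Matrix (Fin 3) (Fin 3) ℂ} (hg : ∀ v, qf (g *ᵥ v) = qf v) :
    ContDiffOn ℝ ∞ (act g) Ball := by
  have h2 : ContDiffOn ℝ ∞ (fun w : ℂ × ℂ => ((g *ᵥ lift3 w) 2)⁻¹) Ball :=
    (ba1b_contDiff_coord g 2).contDiffOn.inv fun w hw => third_ne_zero hg hw
  have h0 := ((ba1b_contDiff_coord g 0).contDiffOn (s := Ball)).mul h2
  have h1 := ((ba1b_contDiff_coord g 1).contDiffOn (s := Ball)).mul h2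
  exact h0.prodMk h1

/-- the derivative is complex linear -/
theorem fderiv_act_smul {g : Matrix (Fin 3) (Fin 3) ℂ} (hg : ∀ v, qf (g *ᵥ v) = qf v) {w : ℂ × ℂ}
    (hw : w ∈ Ball) (c : ℂ) (v : ℂ × ℂ) :
    fderiv ℝ (act g) w (c • v) = c • fderiv ℝ (act g) w v := by
  rw [fderiv_act_eq (third_ne_zero hg hw)]
  exact (ba2_D g w).map_smul c v

end

end Pool.Agent.MP_f1864b_gt
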