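import Pool.Agent.Lib.MP_f1864b_gt.G.BA1a

set_option autoImplicit false

/-!
# MP_f1864b_gt, module G/BA2: derivative of the action, in particular at a fixed point
-/

namespace Pool.Agent.MP_f1864b_gt

open Matrix Complex Topology Set Filter
open scoped Manifold ContDiff

noncomputable section

/-- the linear part of the `i`-th homogeneous coordinate of `g` -/
def ba2_lin (g : Matrix (Fin 3) (Fin 3) ℂ) (i : Fin 3) : ℂ × ℂ →L[ℂ] ℂ :=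
  g i 0 • ContinuousLinearMap.fst ℂ ℂ ℂ + g i 1 • ContinuousLinearMap.snd ℂ ℂ ℂ

theorem ba2_lin_apply (g : Matrix (Fin 3) (Fin 3) ℂ) (i : Fin 3) (v : ℂ × ℂ) :
    ba2_lin g i v = (g *ᵥ (lift3 v - lift3 0)) i := by
  simp [ba2_lin, Matrix.mulVec, dotProduct, Fin.sum_univ_three, lift3]

theorem ba2_coord (g : Matrix (Fin 3) (Fin 3) ℂ) (i : Fin 3) (w : ℂ × ℂ) :
    (g *ᵥ lift3 w) i = ba2_lin g i w + g i 2 := by
  simp [ba2_lin, Matrix.mulVec, dotProduct, Fin.sum_univ_three, lift3]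

theorem ba2_hasFDerivAt_coord (g : Matrix (Fin 3) (Fin 3) ℂ) (i : Fin 3) (w : ℂ × ℂ) :
    HasFDerivAt (𝕜 := ℂ) (fun w : ℂ × ℂ => (g *ᵥ lift3 w) i) (ba2_lin g i) w := by
  have h : (fun w : ℂ × ℂ => (g *ᵥ lift3 w) i) = fun w => ba2_lin g i w + g i 2 :=
    funext (ba2_coord g i)
  rw [h]
  exact (ba2_lin g i).hasFDerivAt.add_const _

/-- the derivative of the quotient of two homogeneous coordinates -/
def ba2_quot (g : Matrix (Fin 3) (Fin 3) ℂ) (w : ℂ × ℂ) (i : Fin 3) : ℂ × ℂ →L[ℂ] ℂ :=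
  (g *ᵥ lift3 w) i • (-((g *ᵥ lift3 w) 2 ^ 2)⁻¹ • ba2_lin g 2) + ((g *ᵥ lift3 w) 2)⁻¹ • ba2_lin g i

/-- the complex derivative of the action -/
def ba2_D (g : Matrix (Fin 3) (Fin 3) ℂ) (w : ℂ × ℂ) : ℂ × ℂ →L[ℂ] ℂ × ℂ :=
  (ba2_quot g w 0).prod (ba2_quot g w 1)

theorem ba2_quot_hasFDerivAt (g : Matrix (Fin 3) (Fin 3) ℂ) (i : Fin 3) {w : ℂ × ℂ}
    (h : (g *ᵥ lift3 w) 2 ≠ 0) :
    HasFDerivAt (𝕜 := ℂ) (fun w : ℂ × ℂ => (g *ᵥ lift3 w) i / (g *ᵥ lift3 w) 2) (ba2_quot g w i) w := by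
  have h1 := ba2_hasFDerivAt_coord g i w
  have h2 := ba2_hasFDerivAt_coord g 2 w
  have h3 := (hasDerivAt_inv h).comp_hasFDerivAt w h2
  have h4 := h1.mul h3
  simp only [div_eq_mul_inv]
  exact h4

/-- the action is complex differentiable where the third coordinate does not vanish -/
theorem hasFDerivAt_act {g : Matrix (Fin 3) (Fin 3) ℂ} {w : ℂ × ℂ} (h : (g *ᵥ lift3 w) 2 ≠ 0) :
    HasFDerivAt (𝕜 := ℂ) (act g) (ba2_D g w) w :=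
  (ba2_quot_hasFDerivAt g 0 h).prodMk (ba2_quot_hasFDerivAt g 1 h)

/-- the real derivative of the action -/
theorem fderiv_act_eq {g : Matrix (Fin 3) (Fin 3) ℂ} {w : ℂ × ℂ} (h : (g *ᵥ lift3 w) 2 ≠ 0) :
    fderiv ℝ (act g) w = (ba2_D g w).restrictScalars ℝ :=
  ((hasFDerivAt_act h).restrictScalars ℝ).fderiv

theorem ba2_quot_apply (g : Matrix (Fin 3) (Fin 3) ℂ) (w : ℂ × ℂ) (i : Fin 3) (v : ℂ × ℂ) :
    ba2_quot g w i v = (g *ᵥ lift3 w) i * (-((g *ᵥ lift3 w) 2 ^ 2)⁻¹ * (g *ᵥ (lift3 v - lift3 0)) 2) +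
      ((g *ᵥ lift3 w) 2)⁻¹ * (g *ᵥ (lift3 v - lift3 0)) i := by
  rw [← ba2_lin_apply, ← ba2_lin_apply]
  rfl

private theorem ba2_alg (z a b c : ℂ) (hz : z ≠ 0) :
    a - b * c = z * ((z * c) * (-(z ^ 2)⁻¹ * b) + z⁻¹ * a) := by
  field_simp
  ring

private theorem ba2_fixed {g : Matrix (Fin 3) (Fin 3) ℂ} {w : ℂ × ℂ} (h : (g *ᵥ lift3 w) 2 ≠ 0)
    (i : Fin 3) (hi : (g *ᵥ lift3 w) i / (g *ᵥ lift3 w) 2 = lift3 w i) (v : ℂ × ℂ) :
    (g *ᵥ (lift3 v - lift3 0)) i - (g *ᵥ (lift3 v - lift3 0)) 2 * lift3 w i =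
      (g *ᵥ lift3 w) 2 * ba2_quot g w i v := by
  have h0 : (g *ᵥ lift3 w) i = (g *ᵥ lift3 w) 2 * lift3 w i := by
    rw [← hi]
    field_simp
  rw [ba2_quot_apply, h0]
  exact ba2_alg _ _ _ _ h

/-- the derivative at a fixed point; `lift3 v - lift3 0` is the vector `(v₁, v₂, 0)` -/
theorem fderiv_act_fixed {g : Matrix (Fin 3) (Fin 3) ℂ} (hg : ∀ v, qf (g *ᵥ v) = qf v) {w : ℂ × ℂ}
    (hw : w ∈ Ball) (hfix : act g w = w) (v : ℂ × ℂ) :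
    g *ᵥ (lift3 v - lift3 0) - (g *ᵥ (lift3 v - lift3 0)) 2 • lift3 w =
      (g *ᵥ lift3 w) 2 • (lift3 (fderiv ℝ (act g) w v) - lift3 0) := by
  have h := third_ne_zero hg hw
  have hD : fderiv ℝ (act g) w v = (ba2_quot g w 0 v, ba2_quot g w 1 v) := by
    rw [fderiv_act_eq h]
    rfl
  rw [hD]
  have e0 := ba2_fixed h 0 (congrArg Prod.fst hfix) v
  have e1 := ba2_fixed h 1 (congrArg Prod.snd hfix) v
  funext i
  fin_cases i
  · simpa [lift3] using e0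
  · simpa [lift3] using e1
  · simp [lift3]

end

end Pool.Agent.MP_f1864b_gt
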