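import Pool.Agent.Lib.MP_f1864b_gt.G.BA1a
import Pool.Agent.Lib.MP_f1864b_gt.G.BA2

set_option autoImplicit false

/-!
# MP_f1864b_gt, module G/BA3: unitary involutions fixing a point of the ball
-/

namespace Pool.Agent.MP_f1864b_gt

open Matrix Complex Topology Set Filter
open scoped Manifold ContDiff

noncomputable section

/-- the hermitian form of signature (2, 1) -/
private def ba3_h (a b : Fin 3 → ℂ) : ℂ :=
  a 0 * starRingEnd ℂ (b 0) + a 1 * starRingEnd ℂ (b 1) - (rho : ℂ) * (a 2 * starRingEnd ℂ (b 2))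

private theorem ba3_qf_add (x y : Fin 3 → ℂ) : qf (x + y) = qf x + qf y + 2 * (ba3_h x y).re := by
  simp only [qf, ba3_h, Pi.add_apply, ← Complex.normSq_eq_norm_sq, Complex.normSq_add, sub_re, add_re,
    Complex.re_ofReal_mul]
  ring

private theorem ba3_h_self (x : Fin 3 → ℂ) : ba3_h x x = (qf x : ℂ) := by
  simp only [qf, ba3_h, Complex.mul_conj, Complex.normSq_eq_norm_sq]
  push_cast
  ring

private theorem ba3_h_add_left (x y z : Fin 3 → ℂ) : ba3_h (x + y) z = ba3_h x z + ba3_h y z := by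
  simp only [ba3_h, Pi.add_apply]
  ring

private theorem ba3_h_smul_left (c : ℂ) (x z : Fin 3 → ℂ) : ba3_h (c • x) z = c * ba3_h x z := by
  simp only [ba3_h, Pi.smul_apply, smul_eq_mul]
  ring

private theorem ba3_h_neg_left (x z : Fin 3 → ℂ) : ba3_h (-x) z = -ba3_h x z := by
  simp only [ba3_h, Pi.neg_apply]
  ring

private theorem ba3_h_smul_right (c : ℂ) (x z : Fin 3 → ℂ) :
    ba3_h x (c • z) = starRingEnd ℂ c * ba3_h x z := by
  simp only [ba3_h, Pi.smul_apply, smul_eq_mul, map_mul]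
  ring

private theorem ba3_qf_smul (c : ℂ) (x : Fin 3 → ℂ) : qf (c • x) = ‖c‖ ^ 2 * qf x := by
  simp only [qf, Pi.smul_apply, smul_eq_mul, norm_mul]
  ring

private theorem ba3_qf_neg (x : Fin 3 → ℂ) : qf (-x) = qf x := by
  simp only [qf, Pi.neg_apply, norm_neg]

private theorem ba3_q_ne {w : ℂ × ℂ} (hw : w ∈ Ball) : (qf (lift3 w) : ℂ) ≠ 0 := by
  have h := mem_Ball_iff.1 hw
  exact_mod_cast h.ne

private theorem ba3_sM_mulVec (w : ℂ × ℂ) (x : Fin 3 → ℂ) :
    sM w *ᵥ x = -x + (2 * ba3_h x (lift3 w) / (qf (lift3 w) : ℂ)) • lift3 w := by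
  funext i
  simp only [Matrix.mulVec, dotProduct, sM, Pi.add_apply, Pi.neg_apply, Pi.smul_apply, smul_eq_mul]
  have h1 : ∀ j, ((if i = j then (-1 : ℂ) else 0) +
      2 * lift3 w i * (starRingEnd ℂ (lift3 w j)) * (![1, 1, -(rho : ℂ)] j) / (qf (lift3 w) : ℂ)) * x j =
      (if i = j then -x j else 0) + (2 * lift3 w i / (qf (lift3 w) : ℂ)) *
        ((![1, 1, -(rho : ℂ)] j) * (x j * (starRingEnd ℂ (lift3 w j)))) := by
    intro j
    split_ifs <;> ring
  rw [Finset.sum_congr rfl fun j _ => h1 j, Finset.sum_add_distrib, ← Finset.mul_sum,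
    Finset.sum_ite_eq, if_pos (Finset.mem_univ i)]
  have h2 : ∑ j : Fin 3, (![1, 1, -(rho : ℂ)] j) * (x j * (starRingEnd ℂ (lift3 w j))) =
      ba3_h x (lift3 w) := by
    rw [Fin.sum_univ_three]
    simp only [ba3_h, Matrix.cons_val_zero, Matrix.cons_val_one, Matrix.cons_val_two, Matrix.head_cons,
      Matrix.tail_cons]
    simp
    ring
  rw [h2]
  ring

theorem sM_mulVec_lift3 {w : ℂ × ℂ} (hw : w ∈ Ball) : sM w *ᵥ lift3 w = lift3 w := by
  rw [ba3_sM_mulVec, ba3_h_self, mul_div_assoc, div_self (ba3_q_ne hw), mul_one, two_smul]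
  abel

private theorem ba3_two (w : ℂ × ℂ) : lift3 w 2 = 1 := by
  simp [lift3]

/-- decomposition of a vector -/
private theorem ba3_decomp (w : ℂ × ℂ) (x : Fin 3 → ℂ) :
    x = (lift3 (x 0 - x 2 * w.1, x 1 - x 2 * w.2) - lift3 0) + x 2 • lift3 w := by
  funext i
  fin_cases i <;> simp [lift3]

private theorem ba3_hat_two (v : ℂ × ℂ) : (lift3 v - lift3 0) 2 = 0 := by
  simp [lift3]

private theorem ba3_eigen {g : Matrix (Fin 3) (Fin 3) ℂ} (hg : ∀ v, qf (g *ᵥ v) = qf v) (hg2 : g * g = 1)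
    {w : ℂ × ℂ} (hw : w ∈ Ball) (hfix : act g w = w) :
    ∃ l : ℂ, (l = 1 ∨ l = -1) ∧ (g *ᵥ lift3 w) 2 = l ∧ g *ᵥ lift3 w = l • lift3 w := by
  have h1 := mulVec_lift3 hg hw
  rw [hfix] at h1
  refine ⟨(g *ᵥ lift3 w) 2, ?_, rfl, h1⟩
  set l := (g *ᵥ lift3 w) 2 with hl
  have h2 : g *ᵥ (g *ᵥ lift3 w) = lift3 w := by
    rw [Matrix.mulVec_mulVec, hg2, Matrix.one_mulVec]
  rw [h1, Matrix.mulVec_smul, h1, smul_smul] at h2
  have h3 := congrFun h2 2
  rw [Pi.smul_apply, ba3_two, smul_eq_mul, mul_one] at h3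
  exact mul_self_eq_one_iff.1 h3

private theorem ba3_ext {g g' : Matrix (Fin 3) (Fin 3) ℂ} (h : ∀ x, g *ᵥ x = g' *ᵥ x) : g = g' :=
  Matrix.mulVec_injective (funext h)

/-- If `g² = 1`, `g` is unitary, fixes `w` and has derivative `1` there, then `g = ± 1`. -/
theorem eq_one_of_fderiv_eq {g : Matrix (Fin 3) (Fin 3) ℂ} (hg : ∀ v, qf (g *ᵥ v) = qf v)
    (hg2 : g * g = 1) {w : ℂ × ℂ} (hw : w ∈ Ball) (hfix : act g w = w)
    (hd : ∀ v, fderiv ℝ (act g) w v = v) : g = 1 ∨ g = -1 := by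
  obtain ⟨l, hl, hl2, hlu⟩ := ba3_eigen hg hg2 hw hfix
  have hl1 : l * l = 1 := by rcases hl with h | h <;> rw [h] <;> norm_num
  have hhat : ∀ v : ℂ × ℂ, g *ᵥ (lift3 v - lift3 0) = l • (lift3 v - lift3 0) := by
    intro v
    have h1 := fderiv_act_fixed hg hw hfix v
    rw [hd v, hl2] at h1
    set y := lift3 v - lift3 0 with hy
    have h2 : g *ᵥ y = l • y + (g *ᵥ y) 2 • lift3 w := by rw [← h1]; abel
    have h3 : g *ᵥ (g *ᵥ y) = y := by rw [Matrix.mulVec_mulVec, hg2, Matrix.one_mulVec]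
    set f := (g *ᵥ y) 2 with hf
    rw [h2, Matrix.mulVec_add, Matrix.mulVec_smul, Matrix.mulVec_smul, hlu, h2] at h3
    have h4 := congrFun h3 2
    simp only [Pi.add_apply, Pi.smul_apply, smul_eq_mul, ba3_two] at h4
    have hy2 : y 2 = 0 := ba3_hat_two v
    rw [hy2] at h4
    have h5 : (2 * l) * f = 0 := by linear_combination h4
    have h6 : f = 0 := by
      rcases mul_eq_zero.1 h5 with h | h
      · exfalso
        have : l = 0 := by simpa using h
        rw [this] at hl1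
        norm_num at hl1
      · exact h
    rw [h2, h6, zero_smul, add_zero]
  have hall : ∀ x, g *ᵥ x = l • x := by
    intro x
    rw [ba3_decomp w x, Matrix.mulVec_add, Matrix.mulVec_smul, hhat, hlu, smul_add, smul_comm]
  rcases hl with h | h
  · left
    refine ba3_ext fun x => ?_
    rw [hall, h, one_smul, Matrix.one_mulVec]
  · right
    refine ba3_ext fun x => ?_
    rw [hall, h, neg_one_smul, Matrix.neg_mulVec, Matrix.one_mulVec]

/-- If `g² = 1`, `g` is unitary, fixes `w` and has derivative `-1` there, then `g = ± sM w`. -/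
theorem eq_sM_of_fderiv_eq {g : Matrix (Fin 3) (Fin 3) ℂ} (hg : ∀ v, qf (g *ᵥ v) = qf v)
    (hg2 : g * g = 1) {w : ℂ × ℂ} (hw : w ∈ Ball) (hfix : act g w = w)
    (hd : ∀ v, fderiv ℝ (act g) w v = -v) : g = sM w ∨ g = -sM w := by
  obtain ⟨l, hl, hl2, hlu⟩ := ba3_eigen hg hg2 hw hfix
  have hl1 : l * l = 1 := by rcases hl with h | h <;> rw [h] <;> norm_num
  have hlc : starRingEnd ℂ l = l := by rcases hl with h | h <;> rw [h] <;> simp
  have hhat : ∀ v : ℂ × ℂ, g *ᵥ (lift3 v - lift3 0) =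
      -(l • (lift3 v - lift3 0)) + (g *ᵥ (lift3 v - lift3 0)) 2 • lift3 w := by
    intro v
    have h1 := fderiv_act_fixed hg hw hfix v
    rw [hd v, hl2] at h1
    have h2 : lift3 (-v) - lift3 0 = -(lift3 v - lift3 0) := by
      funext i
      fin_cases i <;> simp [lift3]
    rw [h2, smul_neg] at h1
    rw [← h1]
    abel
  have hall : ∀ x, ∃ F : ℂ, g *ᵥ x = -(l • x) + F • lift3 w := by
    intro x
    set y := lift3 (x 0 - x 2 * w.1, x 1 - x 2 * w.2) - lift3 0 with hy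
    refine ⟨(g *ᵥ y) 2 + 2 * l * x 2, ?_⟩
    have hx : x = y + x 2 • lift3 w := ba3_decomp w x
    have h3 : g *ᵥ x = g *ᵥ y + x 2 • (g *ᵥ lift3 w) := by
      conv_lhs => rw [hx]
      rw [Matrix.mulVec_add, Matrix.mulVec_smul]
    have h4 : l • x = l • y + (l * x 2) • lift3 w := by
      conv_lhs => rw [hx]
      rw [smul_add, smul_smul]
    have h5 := hhat (x 0 - x 2 * w.1, x 1 - x 2 * w.2)
    rw [← hy] at h5
    rw [h3, hlu, h4]
    funext i
    have h6 := congrFun h5 i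
    simp only [Pi.add_apply, Pi.neg_apply, Pi.smul_apply, smul_eq_mul] at h6 ⊢
    linear_combination h6
  have hpol : ∀ x, l * ba3_h (g *ᵥ x) (lift3 w) = ba3_h x (lift3 w) := by
    intro x
    have key : ∀ t : ℂ, (starRingEnd ℂ t * (l * ba3_h (g *ᵥ x) (lift3 w))).re =
        (starRingEnd ℂ t * ba3_h x (lift3 w)).re := by
      intro t
      have h1 := hg (x + t • lift3 w)
      rw [Matrix.mulVec_add, Matrix.mulVec_smul, hlu, smul_smul, ba3_qf_add, ba3_qf_add, hg,
        ba3_qf_smul, ba3_qf_smul, ba3_h_smul_right, ba3_h_smul_right, map_mul, hlc, norm_mul] at h1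
      have hln : ‖l‖ = 1 := by rcases hl with h | h <;> rw [h] <;> simp
      rw [hln, mul_one] at h1
      have h2 : starRingEnd ℂ t * l * ba3_h (g *ᵥ x) (lift3 w) =
        starRingEnd ℂ t * (l * ba3_h (g *ᵥ x) (lift3 w)) := by ring
      rw [h2] at h1
      linarith
    have k1 := key 1
    have k2 := key Complex.I
    rw [map_one, one_mul, one_mul] at k1
    rw [Complex.conj_I] at k2
    simp only [Complex.mul_re, Complex.neg_re, Complex.neg_im, Complex.I_re, Complex.I_im] at k2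
    apply Complex.ext
    · exact k1
    · linarith
  have hq := ba3_q_ne hw
  have hform : ∀ x, g *ᵥ x = l • (sM w *ᵥ x) := by
    intro x
    obtain ⟨F, hF⟩ := hall x
    have h1 := hpol x
    rw [hF, ba3_h_add_left, ba3_h_neg_left, ba3_h_smul_left, ba3_h_smul_left, ba3_h_self] at h1
    have h2 : F * (qf (lift3 w) : ℂ) = 2 * l * ba3_h x (lift3 w) := by
      linear_combination l * h1 + (l * ba3_h x (lift3 w) - F * (qf (lift3 w) : ℂ)) * hl1
    have h3 : F = l * (2 * ba3_h x (lift3 w) / (qf (lift3 w) : ℂ)) := by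
      rw [← mul_div_assoc, eq_div_iff hq, h2]
      ring
    rw [hF, ba3_sM_mulVec, smul_add, smul_neg, smul_smul, h3]
  rcases hl with h | h
  · left
    refine ba3_ext fun x => ?_
    rw [hform, h, one_smul]
  · right
    refine ba3_ext fun x => ?_
    rw [hform, h, neg_one_smul, Matrix.neg_mulVec]

theorem act_sM {w : ℂ × ℂ} (hw : w ∈ Ball) : act (sM w) w = w := by
  rw [act, sM_mulVec_lift3 hw]
  simp [lift3]

private theorem ba3_unitary_sM {w : ℂ × ℂ} (hw : w ∈ Ball) (x : Fin 3 → ℂ) :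
    qf (sM w *ᵥ x) = qf x := by
  have hq := mem_Ball_iff.1 hw
  rw [ba3_sM_mulVec, ba3_qf_add, ba3_qf_neg, ba3_qf_smul, ba3_h_neg_left, ba3_h_smul_right]
  set h := ba3_h x (lift3 w) with hh
  set q := qf (lift3 w) with hqq
  have h1 : ‖2 * h / (q : ℂ)‖ ^ 2 * q = 4 * ‖h‖ ^ 2 / q := by
    rw [norm_div, norm_mul, Complex.norm_real, div_pow, mul_pow, Real.norm_eq_abs, sq_abs]
    have : ‖(2 : ℂ)‖ = 2 := by simp
    rw [this]
    field_simp
    ring
  have h2 : (-(starRingEnd ℂ (2 * h / (q : ℂ)) * h)).re = -(2 * ‖h‖ ^ 2 / q) := by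
    have e1 : starRingEnd ℂ (2 * h / (q : ℂ)) * h = ((2 * ‖h‖ ^ 2 / q : ℝ) : ℂ) := by
      rw [map_div₀, map_mul, Complex.conj_ofReal, map_ofNat]
      have e2 : starRingEnd ℂ h * h = ((‖h‖ ^ 2 : ℝ) : ℂ) := by
        rw [mul_comm, Complex.mul_conj, Complex.normSq_eq_norm_sq]
      push_cast at e2 ⊢
      rw [← e2]
      ring
    rw [e1, Complex.neg_re, Complex.ofReal_re]
  rw [h1, h2]
  ring

theorem fderiv_act_sM {w : ℂ × ℂ} (hw : w ∈ Ball) (v : ℂ × ℂ) :
    fderiv ℝ (act (sM w)) w v = -v := by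
  have h1 := fderiv_act_fixed (ba3_unitary_sM hw) hw (act_sM hw) v
  rw [sM_mulVec_lift3 hw, ba3_two, one_smul, ba3_sM_mulVec] at h1
  set c := 2 * ba3_h (lift3 v - lift3 0) (lift3 w) / (qf (lift3 w) : ℂ) with hc
  have e0 := congrFun h1 0
  have e1 := congrFun h1 1
  simp only [Pi.add_apply, Pi.neg_apply, Pi.smul_apply, Pi.sub_apply, smul_eq_mul, lift3,
    Matrix.cons_val_zero, Matrix.cons_val_one] at e0 e1
  simp at e0 e1
  refine Prod.ext ?_ ?_
  · simpa using e0.symm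
  · simpa using e1.symm

end

end Pool.Agent.MP_f1864b_gt
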