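import Mathlib

set_option autoImplicit false

/-!
# MP_f1864b_gt: the complex ball, the group action and the data which the arithmetic side delivers
-/

namespace Pool.Agent.MP_f1864b_gt

open Matrix Complex Topology

noncomputable section

/-- `ρ = (√5 - 1)/2`; the number `-ρ = (1 - √5)/2` is a unit of `ℤ[(1 + √5)/2]`. -/
def rho : ℝ := (Real.sqrt 5 - 1) / 2

/-- The hermitian form `|v₀|² + |v₁|² - ρ |v₂|²` on `ℂ³`. -/
def qf (v : Fin 3 → ℂ) : ℝ := ‖v 0‖ ^ 2 + ‖v 1‖ ^ 2 - rho * ‖v 2‖ ^ 2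

/-- The ball `|w₁|² + |w₂|² < ρ` of `ℂ²`; its points are the negative lines of `qf`. -/
def Ball : Set (ℂ × ℂ) := {w | ‖w.1‖ ^ 2 + ‖w.2‖ ^ 2 < rho}

/-- The vector `(w₁, w₂, 1)`. -/
def lift3 (w : ℂ × ℂ) : Fin 3 → ℂ := ![w.1, w.2, 1]

/-- The action of a matrix on the ball (on the lines of `ℂ³`). -/
def act (g : Matrix (Fin 3) (Fin 3) ℂ) (w : ℂ × ℂ) : ℂ × ℂ :=
  ((g *ᵥ lift3 w) 0 / (g *ᵥ lift3 w) 2, (g *ᵥ lift3 w) 1 / (g *ᵥ lift3 w) 2)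

/-- Complex conjugation on `ℂ²`. -/
def cw (w : ℂ × ℂ) : ℂ × ℂ := (starRingEnd ℂ w.1, starRingEnd ℂ w.2)

/-- Complex conjugation of the entries of an invertible matrix. -/
def conjG : GL (Fin 3) ℂ →* GL (Fin 3) ℂ := Matrix.GeneralLinearGroup.map (starRingEnd ℂ)

/-- The matrix `z = diag(-1, -1, 1)`. -/
def zG : GL (Fin 3) ℂ where
  val := Matrix.diagonal ![-1, -1, 1]
  inv := Matrix.diagonal ![-1, -1, 1]
  val_inv := by
    rw [Matrix.diagonal_mul_diagonal, ← Matrix.diagonal_one]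
    congr 1
    ext i
    fin_cases i <;> simp
  inv_val := by
    rw [Matrix.diagonal_mul_diagonal, ← Matrix.diagonal_one]
    congr 1
    ext i
    fin_cases i <;> simp

/-- The unitary involution `-1 + 2π`, where `π` is the orthogonal projection on the line spanned by
`(w₁, w₂, 1)`; it induces the geodesic symmetry of the ball at `w`. -/
def sM (w : ℂ × ℂ) : Matrix (Fin 3) (Fin 3) ℂ := fun i j =>
  (if i = j then -1 else 0) +
    2 * lift3 w i * (starRingEnd ℂ (lift3 w j)) * (![1, 1, -(rho : ℂ)] j) / (qf (lift3 w) : ℂ)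

/-- The orbit of a point of the ball. -/
def orb (Γ : Subgroup (GL (Fin 3) ℂ)) (w : ℂ × ℂ) : Set (ℂ × ℂ) :=
  {w' | ∃ g ∈ Γ, act g.1 w = w'}

/-- The geodesic symmetry at `w` belongs to `Γ z`: the image of `w` in `Γ \ Ball` is an isolated
fixed point of `z`. -/
def Special (Γ : Subgroup (GL (Fin 3) ℂ)) (w : ℂ × ℂ) : Prop :=
  ∃ g ∈ Γ, (g * zG).1 = sM w

/-- The set of the orbits of the special points of the ball. -/
def specialOrbits (Γ : Subgroup (GL (Fin 3) ℂ)) : Set (Set (ℂ × ℂ)) :=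
  orb Γ '' {w | w ∈ Ball ∧ Special Γ w}

/-- The data which the arithmetic side delivers. -/
structure LatticeData (Γ : Subgroup (GL (Fin 3) ℂ)) : Prop where
  unitary : ∀ g ∈ Γ, ∀ v, qf (g.1 *ᵥ v) = qf v
  discontinuous : ∀ K : Set (ℂ × ℂ), K ⊆ Ball → IsCompact K →
    {g : GL (Fin 3) ℂ | g ∈ Γ ∧ ∃ w ∈ K, act g.1 w ∈ K}.Finite
  free : ∀ g ∈ Γ, ∀ w ∈ Ball, act g.1 w = w → g = 1
  cocompact : ∃ K : Set (ℂ × ℂ), K ⊆ Ball ∧ IsCompact K ∧ ∀ w ∈ Ball, ∃ g ∈ Γ, act g.1 w ∈ K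
  conj_mem : ∀ g ∈ Γ, conjG g ∈ Γ
  z_conj_mem : ∀ g ∈ Γ, zG * g * zG ∈ Γ
  z_notMem : zG ∉ Γ
  neg_z_notMem : -zG ∉ Γ
  neg_sM : ∀ w ∈ Ball, ∀ g ∈ Γ, (g * zG).1 ≠ -sM w
  odd : Odd (specialOrbits Γ).ncard

end

end Pool.Agent.MP_f1864b_gt
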