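import Pool.Agent.Lib.MP_f1864b_gt.G.Defs

set_option autoImplicit false

/-!
# Positive determinant of (anti)linear maps of `ℂ²`, fixed planes
-/

namespace Pool.Agent.MP_f1864b_gt

open Matrix Complex Topology Set Filter
open scoped Manifold ContDiff

noncomputable section

namespace DetPosAux

/-- A complex linear injective map has positive real determinant. -/
theorem det_pos_of_linear (L : ℂ × ℂ →ₗ[ℝ] ℂ × ℂ) (hL : Function.Injective L)
    (h : ∀ (c : ℂ) v, L (c • v) = c • L v) : 0 < LinearMap.det L := by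
  let A : ℂ × ℂ →ₗ[ℂ] ℂ × ℂ := { toFun := L, map_add' := fun x y => map_add L x y, map_smul' := h }
  have hA : A.restrictScalars ℝ = L := by
    ext v <;> rfl
  have h1 : LinearMap.det L = Algebra.norm ℝ (LinearMap.det A) := by
    rw [← hA, LinearMap.det_restrictScalars]
  have h2 : LinearMap.det A ≠ 0 := by
    intro h0
    have h3 := LinearMap.bot_lt_ker_of_det_eq_zero h0
    have h4 : LinearMap.ker A = ⊥ := LinearMap.ker_eq_bot.2 (fun x y hxy => hL hxy)
    rw [h4] at h3
    exact lt_irrefl _ h3
  rw [h1, Algebra.norm_complex_eq]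
  exact Complex.normSq_pos.2 h2

/-- complex conjugation of both coordinates -/
def cc : ℂ × ℂ →ₗ[ℝ] ℂ × ℂ :=
  LinearMap.prodMap conjAe.toLinearEquiv.toLinearMap conjAe.toLinearEquiv.toLinearMap

theorem cc_apply (v : ℂ × ℂ) : cc v = (starRingEnd ℂ v.1, starRingEnd ℂ v.2) := rfl

theorem cc_smul (c : ℂ) (v : ℂ × ℂ) : cc (c • v) = starRingEnd ℂ c • cc v := by
  rw [cc_apply, cc_apply]
  ext <;> simp

theorem cc_cc (v : ℂ × ℂ) : cc (cc v) = v := by
  rw [cc_apply, cc_apply]
  ext <;> simp

theorem det_cc : LinearMap.det cc = 1 := by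
  rw [cc, LinearMap.det_prodMap, det_conjAe]
  norm_num

end DetPosAux

open DetPosAux in
/-- A complex linear or antilinear bijection of `ℂ²` has positive real determinant. -/
theorem det_pos_of_smul (L : ℂ × ℂ →L[ℝ] ℂ × ℂ) (hL : Function.Injective L)
    (h : (∀ (c : ℂ) v, L (c • v) = c • L v) ∨ (∀ (c : ℂ) v, L (c • v) = starRingEnd ℂ c • L v)) :
    0 < L.det := by
  rcases h with h | h
  · exact det_pos_of_linear (L : ℂ × ℂ →ₗ[ℝ] ℂ × ℂ) hL h
  · have h1 : 0 < LinearMap.det ((L : ℂ × ℂ →ₗ[ℝ] ℂ × ℂ) ∘ₗ cc) := by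
      apply det_pos_of_linear
      · intro x y hxy
        have h2 : cc x = cc y := hL hxy
        rw [← cc_cc x, h2, cc_cc]
      · intro c v
        show L (cc (c • v)) = c • L (cc v)
        rw [cc_smul, h]
        simp
    rw [LinearMap.det_comp, det_cc, mul_one] at h1
    exact h1

/-- A complex linear endomorphism of `ℂ²` different from `1` fixes at most a real plane. -/
theorem finrank_fixed_linear (L : ℂ × ℂ →L[ℝ] ℂ × ℂ) (h : ∀ (c : ℂ) v, L (c • v) = c • L v)
    (h1 : ∃ v, L v ≠ v) (S : Submodule ℝ (ℂ × ℂ)) (hS : ∀ v ∈ S, L v = v) :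
    Module.finrank ℝ S ≤ 2 := by
  let K : Submodule ℂ (ℂ × ℂ) :=
    { carrier := {v | L v = v}
      add_mem' := by
        intro a b ha hb
        show L (a + b) = a + b
        rw [map_add, show L a = a from ha, show L b = b from hb]
      zero_mem' := map_zero L
      smul_mem' := by
        intro c v hv
        show L (c • v) = c • v
        rw [h, show L v = v from hv] }
  have hK : K ≠ ⊤ := by
    intro hK
    obtain ⟨v, hv⟩ := h1
    have h2 : v ∈ K := by rw [hK]; exact Submodule.mem_top
    exact hv h2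
  have h2 : Module.finrank ℂ K < Module.finrank ℂ (ℂ × ℂ) := Submodule.finrank_lt hK
  have h3 : Module.finrank ℂ (ℂ × ℂ) = 2 := by
    rw [Module.finrank_prod, Module.finrank_self]
  have h4 : Module.finrank ℝ (K.restrictScalars ℝ) = 2 * Module.finrank ℂ K :=
    finrank_real_of_complex K
  have h5 : S ≤ K.restrictScalars ℝ := fun v hv => hS v hv
  have h6 := Submodule.finrank_mono h5
  omega

/-- An antilinear endomorphism of `ℂ²` fixes at most a real plane. -/
theorem finrank_fixed_antilinear (L : ℂ × ℂ →L[ℝ] ℂ × ℂ)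
    (h : ∀ (c : ℂ) v, L (c • v) = starRingEnd ℂ c • L v)
    (S : Submodule ℝ (ℂ × ℂ)) (hS : ∀ v ∈ S, L v = v) :
    Module.finrank ℝ S ≤ 2 := by
  let J : (ℂ × ℂ) →ₗ[ℝ] (ℂ × ℂ) :=
    { toFun := fun v => I • v
      map_add' := fun x y => smul_add I x y
      map_smul' := by
        intro c v
        show I • (c • v) = c • (I • v)
        exact smul_comm I c v }
  have hJ : Function.Injective J := by
    intro x y hxy
    have h1 : I • x = I • y := hxy
    exact smul_right_injective _ I_ne_zero h1
  have hd : Disjoint S (S.map J) := by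
    rw [Submodule.disjoint_def]
    rintro x hx ⟨y, hy, rfl⟩
    have h1 : L (I • y) = I • y := hS _ hx
    rw [h, hS y hy] at h1
    have h2 : (starRingEnd ℂ I - I) • y = 0 := by rw [sub_smul, h1, sub_self]
    rw [conj_I] at h2
    have h3 : (-I - I : ℂ) ≠ 0 := by
      intro h4
      have := congrArg Complex.im h4
      simp at this
      norm_num at this
    rcases smul_eq_zero.1 h2 with h4 | h4
    · exact absurd h4 h3
    · rw [h4, map_zero]
  have h1 := Submodule.finrank_add_finrank_le_of_disjoint hd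
  have h2 : Module.finrank ℝ (S.map J) = Module.finrank ℝ S :=
    (LinearEquiv.finrank_eq (Submodule.equivMapOfInjective J hJ S)).symm
  have h3 : Module.finrank ℝ (ℂ × ℂ) = 4 := by
    rw [Module.finrank_prod, Complex.finrank_real_complex]
  omega

end

end Pool.Agent.MP_f1864b_gt
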