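import Pool.Agent.Lib.MP_f1864b_gt.G.Space

set_option autoImplicit false

/-!
# The fixed points of the involution with an even translation part
-/

namespace Pool.Agent.MP_f1864b_gt

open Matrix Complex Topology Set Filter TopologicalSpace
open scoped Manifold ContDiff

noncomputable section

variable {Γ : Subgroup (GL (Fin 3) ℂ)}

/-- a special point is fixed -/
theorem special_fixed {g : GL (Fin 3) ℂ} {w : ℂ × ℂ} (hw : w ∈ Ball) (h : (g * zG).1 = sM w) :
    act g.1 (-w) = w := by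
  have h1 : act (g.1 * zG.1) w = act g.1 (act zG.1 w) := act_mul g.1 unitary_zG hw
  rw [act_zG, ← Units.val_mul, h, act_sM hw] at h1
  exact h1.symm

theorem fixEven_unitary (hΓ : LatticeData Γ) {g : GL (Fin 3) ℂ} (hg : g ∈ Γ) :
    ∀ v, qf ((g * zG).1 *ᵥ v) = qf v := by
  intro v
  rw [Units.val_mul, ← Matrix.mulVec_mulVec, hΓ.unitary g hg, unitary_zG]

theorem fixEven_zG_mul_zG : zG * zG = 1 := by
  have h : zG⁻¹ = zG := by
    apply Units.ext
    rfl
  calc zG * zG = zG * zG⁻¹ := by rw [h]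
    _ = 1 := mul_inv_cancel _

/-- The derivative of the lift of the involution. -/
theorem fixEven_fderiv (hΓ : LatticeData Γ) {g : GL (Fin 3) ℂ} (hg : g ∈ Γ) {k : ℤ} (hk : Even k)
    {x : V5} (hx : x ∈ XB) (v : V5) :
    cle5 (fderiv ℝ (fun y => eltV g.1 k (-y)) x v) =
      (fderiv ℝ (act (g * zG).1) (cle5 x).1 (cle5 v).1, -(cle5 v).2) := by
  have hw : (cle5 x).1 ∈ Ball := hx
  have hU := fixEven_unitary hΓ hg
  have hdiff : DifferentiableAt ℝ (act (g * zG).1) (cle5 x).1 :=
    ((contDiffOn_act hU).contDiffAt (isOpen_Ball.mem_nhds hw)).differentiableAt (by simp)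
  have h1 : HasFDerivAt (fun p : (ℂ × ℂ) × ℝ => (act (g * zG).1 p.1, -p.2 + (k : ℝ)))
      (((fderiv ℝ (act (g * zG).1) (cle5 x).1).comp (ContinuousLinearMap.fst ℝ (ℂ × ℂ) ℝ)).prod
        (-(ContinuousLinearMap.snd ℝ (ℂ × ℂ) ℝ))) (cle5 x) := by
    refine HasFDerivAt.prodMk ?_ ?_
    · exact HasFDerivAt.comp (cle5 x) hdiff.hasFDerivAt hasFDerivAt_fst
    · exact (hasFDerivAt_snd.neg).add_const _
  have h2 : HasFDerivAt (fun y : V5 => cle5.symm (act (g * zG).1 (cle5 y).1, -(cle5 y).2 + (k : ℝ)))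
      ((cle5.symm : (ℂ × ℂ) × ℝ →L[ℝ] V5).comp
        ((((fderiv ℝ (act (g * zG).1) (cle5 x).1).comp (ContinuousLinearMap.fst ℝ (ℂ × ℂ) ℝ)).prod
        (-(ContinuousLinearMap.snd ℝ (ℂ × ℂ) ℝ))).comp (cle5 : V5 →L[ℝ] (ℂ × ℂ) × ℝ))) x :=
    (cle5.symm.hasFDerivAt).comp x (h1.comp x cle5.hasFDerivAt)
  have h3 : (fun y => eltV g.1 k (-y)) =ᶠ[𝓝 x]
      (fun y : V5 => cle5.symm (act (g * zG).1 (cle5 y).1, -(cle5 y).2 + (k : ℝ))) := by
    filter_upwards [XB.isOpen.mem_nhds hx] with y hy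
    have hy' : (cle5 y).1 ∈ Ball := hy
    unfold eltV elt
    rw [map_neg]
    simp only [Prod.fst_neg, Prod.snd_neg, cpow, hk, if_true]
    congr 2
    rw [Units.val_mul, act_mul _ unitary_zG hy', act_zG]
  rw [(h2.congr_of_eventuallyEq h3).fderiv]
  simp

theorem fixed_even (hΓ : LatticeData Γ) {g : GL (Fin 3) ℂ} (hg : g ∈ Γ) {k : ℤ} (hk : Even k)
    {x : V5} (hx : x ∈ XB) (hfix : eltV g.1 k (-x) = x) :
    (∀ S : Submodule ℝ V5, (∀ v ∈ S, fderiv ℝ (fun y => eltV g.1 k (-y)) x v = v) →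
      Module.finrank ℝ S ≤ 2) ∧
    ((∀ v, fderiv ℝ (fun y => eltV g.1 k (-y)) x v = -v) ↔ (g * zG).1 = sM (cle5 x).1) := by
  have hw : (cle5 x).1 ∈ Ball := hx
  have hU := fixEven_unitary hΓ hg
  -- the point is fixed
  have h1 : act g.1 (-(cle5 x).1) = (cle5 x).1 := by
    have h : (cle5 (eltV g.1 k (-x))).1 = (cle5 x).1 := by rw [hfix]
    rw [cle5_eltV, map_neg] at h
    unfold elt at h
    simpa only [Prod.fst_neg, cpow, hk, if_true] using h
  have h2 : act (g * zG).1 (cle5 x).1 = (cle5 x).1 := by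
    rw [Units.val_mul, act_mul _ unitary_zG hw, act_zG, h1]
  -- the square is trivial
  have h3 : (g * zG) * (g * zG) = 1 := by
    apply hΓ.free _ _ _ hw
    · rw [Units.val_mul, act_mul _ hU hw, h2, h2]
    · have : (g * zG) * (g * zG) = g * (zG * g * zG) := by group
      rw [this]
      exact Γ.mul_mem hg (hΓ.z_conj_mem g hg)
  have h4 : (g * zG).1 * (g * zG).1 = 1 := by
    rw [← Units.val_mul, h3, Units.val_one]
  have hD := fixEven_fderiv hΓ hg hk hx
  set D := fderiv ℝ (act (g * zG).1) (cle5 x).1 with hDdef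
  have hne : ∃ v, D v ≠ v := by
    by_contra hcon
    push Not at hcon
    rcases eq_one_of_fderiv_eq hU h4 hw h2 hcon with h5 | h5
    · apply hΓ.z_notMem
      have h6 : g * zG = 1 := Units.ext h5
      have h7 : g = zG := by
        calc g = g * (zG * zG) := by rw [fixEven_zG_mul_zG, mul_one]
          _ = (g * zG) * zG := by rw [mul_assoc]
          _ = zG := by rw [h6, one_mul]
      rw [← h7]
      exact hg
    · apply hΓ.neg_z_notMem
      have h6 : g * zG = -1 := Units.ext h5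
      have h7 : g = -zG := by
        calc g = g * (zG * zG) := by rw [fixEven_zG_mul_zG, mul_one]
          _ = (g * zG) * zG := by rw [mul_assoc]
          _ = -zG := by rw [h6, neg_one_mul]
      rw [← h7]
      exact hg
  refine ⟨fun S hS => ?_, fun hL => ?_, fun hs => ?_⟩
  · -- the fixed space
    have h5 : ∀ v ∈ S, D (cle5 v).1 = (cle5 v).1 ∧ (cle5 v).2 = 0 := by
      intro v hv
      have h := hD v
      rw [hS v hv] at h
      have e1 := congrArg Prod.fst h
      have e2 := congrArg Prod.snd h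
      simp only at e1 e2
      exact ⟨e1.symm, by linarith⟩
    let P : V5 →ₗ[ℝ] ℂ × ℂ := (LinearMap.fst ℝ (ℂ × ℂ) ℝ).comp cle5.toLinearMap
    have hP : ∀ v, P v = (cle5 v).1 := fun v => rfl
    have h6 : Module.finrank ℝ (S.map P) ≤ 2 := by
      refine finrank_fixed_linear D (fun c v => fderiv_act_smul hU hw c v) hne _ ?_
      rintro _ ⟨v, hv, rfl⟩
      rw [hP]
      exact (h5 v hv).1
    have h7 : Module.finrank ℝ (S.map P) = Module.finrank ℝ S := by
      refine (LinearEquiv.finrank_eq (LinearEquiv.ofBijective (P.submoduleMap S) ⟨?_, ?_⟩)).symm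
      · intro a b hab
        have hab' : P a.1 = P b.1 := congrArg Subtype.val hab
        apply Subtype.ext
        apply cle5.injective
        refine Prod.ext hab' ?_
        rw [(h5 a.1 a.2).2, (h5 b.1 b.2).2]
      · exact LinearMap.submoduleMap_surjective P S
    rw [← h7]
    exact h6
  · -- derivative minus one
    have h5 : ∀ u, D u = -u := by
      intro u
      have h := hD (cle5.symm (u, 0))
      rw [hL, map_neg, ContinuousLinearEquiv.apply_symm_apply] at h
      exact (congrArg Prod.fst h).symm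
    rcases eq_sM_of_fderiv_eq hU h4 hw h2 h5 with h6 | h6
    · exact h6
    · exact absurd h6 (hΓ.neg_sM _ hw g hg)
  · intro v
    apply cle5.injective
    rw [hD v, map_neg, hDdef, hs, fderiv_act_sM hw]
    rfl

end

end Pool.Agent.MP_f1864b_gt
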