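import Pool.Agent.Lib.MP_f1864b_gt.G.Jac

set_option autoImplicit false

/-!
# Fixed points of the elements which reverse the orientation of the fibres, `k` odd
-/

namespace Pool.Agent.MP_f1864b_gt

open Matrix Complex Topology Set Filter TopologicalSpace
open scoped Manifold ContDiff

noncomputable section

/-- The derivative of `y ↦ eltV g k (-y)`. -/
theorem jac_fderiv_neg {g : M3} (hg : ∀ v, qf (g *ᵥ v) = qf v) (k : ℤ) {x : V5} (hx : x ∈ XB)
    (v : V5) : cle5 (fderiv ℝ (fun y => eltV g k (-y)) x v) =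
      (-fderiv ℝ (act g) (cpow k (-(cle5 x).1)) (jac_cL k (cle5 v).1), -(cle5 v).2) := by
  have hx' : -x ∈ XB := by
    rw [mem_XB, map_neg]
    exact neg_mem_Ball hx
  have h1 : HasFDerivAt (fun y : V5 => -y) (-ContinuousLinearMap.id ℝ V5) x :=
    (hasFDerivAt_id x).neg
  have h2 : HasFDerivAt (fun y => eltV g k (-y))
      ((jac_DV g k (cle5 (-x)).1).comp (-ContinuousLinearMap.id ℝ V5)) x :=
    HasFDerivAt.comp (g := eltV g k) (f := fun y : V5 => -y) x (jac_hasFDerivAt_eltV hg k hx') h1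
  rw [h2.fderiv, ContinuousLinearMap.comp_apply, jac_DV_apply, jac_D_apply]
  have h3 : (-ContinuousLinearMap.id ℝ V5 : V5 →L[ℝ] V5) v = -v := rfl
  rw [h3, map_neg, map_neg]
  simp

variable {Γ : Subgroup (GL (Fin 3) ℂ)}

theorem fixed_odd (hΓ : LatticeData Γ) {g : GL (Fin 3) ℂ} (hg : g ∈ Γ) {k : ℤ} (hk : ¬ Even k)
    {x : V5} (hx : x ∈ XB) (hfix : eltV g.1 k (-x) = x) :
    (∀ S : Submodule ℝ V5, (∀ v ∈ S, fderiv ℝ (fun y => eltV g.1 k (-y)) x v = v) →
      Module.finrank ℝ S ≤ 2) ∧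
    ¬ ∀ v, fderiv ℝ (fun y => eltV g.1 k (-y)) x v = -v := by
  have hu := hΓ.unitary g hg
  have hw : -(cle5 x).1 ∈ Ball := neg_mem_Ball hx
  set A : ℂ × ℂ →L[ℝ] ℂ × ℂ :=
    -((fderiv ℝ (act g.1) (cpow k (-(cle5 x).1))).comp (jac_cL k)) with hA
  have hAs : ∀ (c : ℂ) v, A (c • v) = starRingEnd ℂ c • A v := by
    intro c v
    have h1 := (jac_smul hu k hw).2 hk c v
    show -fderiv ℝ (act g.1) (cpow k (-(cle5 x).1)) (jac_cL k (c • v)) =
      starRingEnd ℂ c • (-fderiv ℝ (act g.1) (cpow k (-(cle5 x).1)) (jac_cL k v))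
    rw [h1, smul_neg]
  have hd : ∀ v : V5, cle5 (fderiv ℝ (fun y => eltV g.1 k (-y)) x v) =
      (A (cle5 v).1, -(cle5 v).2) := fun v => jac_fderiv_neg hu k hx v
  constructor
  · intro S hS
    have h1 : ∀ v ∈ S, A (cle5 v).1 = (cle5 v).1 ∧ (cle5 v).2 = 0 := by
      intro v hv
      have h2 := hd v
      rw [hS v hv] at h2
      constructor
      · exact (congrArg Prod.fst h2).symm
      · have h3 := congrArg Prod.snd h2
        simp only at h3
        linarith
    let f : V5 →ₗ[ℝ] ℂ × ℂ := (LinearMap.fst ℝ (ℂ × ℂ) ℝ).comp cle5.toLinearEquiv.toLinearMap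
    have hf : ∀ v, f v = (cle5 v).1 := fun _ => rfl
    have h4 : Module.finrank ℝ (S.map f) ≤ 2 := by
      refine finrank_fixed_antilinear A hAs _ ?_
      rintro _ ⟨v, hv, rfl⟩
      exact (h1 v hv).1
    have h5 : Function.Injective (f.domRestrict S) := by
      rw [← LinearMap.ker_eq_bot, LinearMap.ker_eq_bot']
      intro v hv
      have h6 : (cle5 (v : V5)).1 = 0 := hv
      have h7 := (h1 v v.2).2
      have h8 : cle5 (v : V5) = 0 := Prod.ext h6 h7
      have h9 : (v : V5) = 0 := by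
        rw [← cle5.symm_apply_apply (v : V5), h8, map_zero]
      exact Subtype.ext h9
    have h6 : Module.finrank ℝ (LinearMap.range (f.domRestrict S)) = Module.finrank ℝ S :=
      LinearMap.finrank_range_of_inj h5
    rw [LinearMap.range_domRestrict] at h6
    rw [← h6]
    exact h4
  · intro h
    have h1 : ∀ u : ℂ × ℂ, A u = -u := by
      intro u
      have h2 := hd (cle5.symm (u, 0))
      rw [h, map_neg, cle5.apply_symm_apply] at h2
      have h3 := congrArg Prod.fst h2
      exact h3.symm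
    have h2 := hAs I (1, 0)
    rw [h1, h1] at h2
    have h3 := congrArg Prod.fst h2
    simp only [Prod.fst_neg, Prod.smul_fst, smul_eq_mul, mul_one, conj_I] at h3
    have h4 := congrArg Complex.im h3
    simp at h4
    norm_num at h4

end

end Pool.Agent.MP_f1864b_gt
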