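import Pool.Agent.Lib.MP_f1864b_gt.G.Space

set_option autoImplicit false

/-!
# The Jacobian of the elements of the group
-/

namespace Pool.Agent.MP_f1864b_gt

open Matrix Complex Topology Set Filter TopologicalSpace
open scoped Manifold ContDiff

noncomputable section

/-- The conjugation `c ^ k` as a continuous linear map. -/
def jac_cL (k : ℤ) : ℂ × ℂ →L[ℝ] ℂ × ℂ :=
  if Even k then ContinuousLinearMap.id ℝ (ℂ × ℂ) else LinearMap.toContinuousLinearMap DetPosAux.cc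

theorem jac_cL_apply (k : ℤ) (w : ℂ × ℂ) : jac_cL k w = cpow k w := by
  unfold jac_cL cpow
  split_ifs
  · rfl
  · rfl

theorem jac_cL_even {k : ℤ} (hk : Even k) : jac_cL k = ContinuousLinearMap.id ℝ (ℂ × ℂ) := by
  unfold jac_cL
  rw [if_pos hk]

theorem jac_cL_odd {k : ℤ} (hk : ¬ Even k) (v : ℂ × ℂ) : jac_cL k v = DetPosAux.cc v := by
  unfold jac_cL
  rw [if_neg hk]
  rfl

theorem jac_hasFDerivAt_act {g : M3} (hg : ∀ v, qf (g *ᵥ v) = qf v) {w : ℂ × ℂ} (hw : w ∈ Ball) :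
    HasFDerivAt (act g) (fderiv ℝ (act g) w) w :=
  (((contDiffOn_act hg).contDiffAt (isOpen_Ball.mem_nhds hw)).differentiableAt
    (by simp)).hasFDerivAt

/-- The derivative of `act g` is injective. -/
theorem jac_injective {g h : M3} (hg : ∀ v, qf (g *ᵥ v) = qf v) (hh : ∀ v, qf (h *ᵥ v) = qf v)
    (hgh : h * g = 1) {w : ℂ × ℂ} (hw : w ∈ Ball) : Function.Injective (fderiv ℝ (act g) w) := by
  have h1 := (jac_hasFDerivAt_act hh (act_mem_Ball hg hw)).comp w (jac_hasFDerivAt_act hg hw)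
  have h2 : HasFDerivAt (act h ∘ act g) (ContinuousLinearMap.id ℝ (ℂ × ℂ)) w := by
    refine (hasFDerivAt_id w).congr_of_eventuallyEq ?_
    filter_upwards [isOpen_Ball.mem_nhds hw] with v hv
    rw [Function.comp_apply, ← act_mul h hg hv, hgh, act_one]
    rfl
  have h3 := h1.unique h2
  intro x y hxy
  have h4 := congrArg (fun L : ℂ × ℂ →L[ℝ] ℂ × ℂ => L x) h3
  have h5 := congrArg (fun L : ℂ × ℂ →L[ℝ] ℂ × ℂ => L y) h3
  simp only [ContinuousLinearMap.comp_apply, ContinuousLinearMap.id_apply] at h4 h5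
  rw [← h4, ← h5, hxy]

/-- The derivative of `elt g k`. -/
def jac_D (g : M3) (k : ℤ) (w : ℂ × ℂ) : (ℂ × ℂ) × ℝ →L[ℝ] (ℂ × ℂ) × ℝ :=
  ((fderiv ℝ (act g) (cpow k w)).comp (jac_cL k)).prodMap (ContinuousLinearMap.id ℝ ℝ)

theorem jac_D_apply (g : M3) (k : ℤ) (w : ℂ × ℂ) (p : (ℂ × ℂ) × ℝ) :
    jac_D g k w p = (fderiv ℝ (act g) (cpow k w) (jac_cL k p.1), p.2) := rfl

theorem jac_hasFDerivAt_elt {g : M3} (hg : ∀ v, qf (g *ᵥ v) = qf v) (k : ℤ) {p : (ℂ × ℂ) × ℝ}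
    (hp : p.1 ∈ Ball) : HasFDerivAt (elt g k) (jac_D g k p.1) p := by
  have h0 : HasFDerivAt (fun p : (ℂ × ℂ) × ℝ => cpow k p.1)
      ((jac_cL k).comp (ContinuousLinearMap.fst ℝ (ℂ × ℂ) ℝ)) p := by
    have : (fun p : (ℂ × ℂ) × ℝ => cpow k p.1) =
        ((jac_cL k).comp (ContinuousLinearMap.fst ℝ (ℂ × ℂ) ℝ)) := by
      funext q
      exact (jac_cL_apply k q.1).symm
    rw [this]
    exact ContinuousLinearMap.hasFDerivAt _
  have h1 : HasFDerivAt (fun p : (ℂ × ℂ) × ℝ => act g (cpow k p.1))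
      ((fderiv ℝ (act g) (cpow k p.1)).comp
        ((jac_cL k).comp (ContinuousLinearMap.fst ℝ (ℂ × ℂ) ℝ))) p :=
    HasFDerivAt.comp (g := act g) (f := fun p : (ℂ × ℂ) × ℝ => cpow k p.1) p
      (jac_hasFDerivAt_act hg (cpow_mem (k := k) hp)) h0
  have h2 : HasFDerivAt (fun p : (ℂ × ℂ) × ℝ => p.2 + (k : ℝ))
      (ContinuousLinearMap.snd ℝ (ℂ × ℂ) ℝ) p :=
    (ContinuousLinearMap.snd ℝ (ℂ × ℂ) ℝ).hasFDerivAt.add_const _
  exact h1.prodMk h2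

/-- The derivative of `eltV g k`. -/
def jac_DV (g : M3) (k : ℤ) (w : ℂ × ℂ) : V5 →L[ℝ] V5 :=
  (cle5.symm : (ℂ × ℂ) × ℝ →L[ℝ] V5).comp ((jac_D g k w).comp (cle5 : V5 →L[ℝ] (ℂ × ℂ) × ℝ))

theorem jac_DV_apply (g : M3) (k : ℤ) (w : ℂ × ℂ) (v : V5) :
    cle5 (jac_DV g k w v) = jac_D g k w (cle5 v) := by
  unfold jac_DV
  exact ContinuousLinearEquiv.apply_symm_apply _ _

theorem jac_hasFDerivAt_eltV {g : M3} (hg : ∀ v, qf (g *ᵥ v) = qf v) (k : ℤ) {x : V5}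
    (hx : x ∈ XB) : HasFDerivAt (eltV g k) (jac_DV g k (cle5 x).1) x :=
  cle5.symm.hasFDerivAt.comp x ((jac_hasFDerivAt_elt hg k (p := cle5 x) hx).comp x cle5.hasFDerivAt)

theorem jac_det (g : M3) (k : ℤ) (w : ℂ × ℂ) : (jac_DV g k w).det =
    ((fderiv ℝ (act g) (cpow k w)).comp (jac_cL k)).det := by
  have h1 : LinearMap.det ((jac_DV g k w : V5 →L[ℝ] V5) : V5 →ₗ[ℝ] V5) =
      LinearMap.det ((jac_D g k w : (ℂ × ℂ) × ℝ →L[ℝ] (ℂ × ℂ) × ℝ) :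
        (ℂ × ℂ) × ℝ →ₗ[ℝ] (ℂ × ℂ) × ℝ) :=
    LinearMap.det_conj _ cle5.symm.toLinearEquiv
  have h2 : ((jac_D g k w : (ℂ × ℂ) × ℝ →L[ℝ] (ℂ × ℂ) × ℝ) : (ℂ × ℂ) × ℝ →ₗ[ℝ] (ℂ × ℂ) × ℝ) =
      LinearMap.prodMap (((fderiv ℝ (act g) (cpow k w)).comp (jac_cL k) :
        ℂ × ℂ →L[ℝ] ℂ × ℂ) : ℂ × ℂ →ₗ[ℝ] ℂ × ℂ) LinearMap.id := rfl
  rw [ContinuousLinearMap.det, h1, h2, LinearMap.det_prodMap, LinearMap.det_id, mul_one]

/-- The horizontal part is linear or antilinear. -/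
theorem jac_smul {g : M3} (hg : ∀ v, qf (g *ᵥ v) = qf v) (k : ℤ) {w : ℂ × ℂ} (hw : w ∈ Ball) :
    (Even k → ∀ (c : ℂ) v, fderiv ℝ (act g) (cpow k w) (jac_cL k (c • v)) =
      c • fderiv ℝ (act g) (cpow k w) (jac_cL k v)) ∧
    (¬ Even k → ∀ (c : ℂ) v, fderiv ℝ (act g) (cpow k w) (jac_cL k (c • v)) =
      starRingEnd ℂ c • fderiv ℝ (act g) (cpow k w) (jac_cL k v)) := by
  constructor
  · intro hk c v
    rw [jac_cL_even hk]
    exact fderiv_act_smul hg (cpow_mem hw) c v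
  · intro hk c v
    rw [jac_cL_odd hk, jac_cL_odd hk, DetPosAux.cc_smul]
    exact fderiv_act_smul hg (cpow_mem hw) _ _

theorem jac_cL_injective (k : ℤ) : Function.Injective (jac_cL k) := by
  intro x y hxy
  rw [jac_cL_apply, jac_cL_apply] at hxy
  have h := congrArg (cpow k) hxy
  have h2 : ∀ w : ℂ × ℂ, cpow k (cpow k w) = w := by
    intro w
    rw [cpow_cpow]
    unfold cpow
    rw [if_pos ⟨k, rfl⟩]
  rw [h2, h2] at h
  exact h

variable {Γ : Subgroup (GL (Fin 3) ℂ)}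

theorem det_eltV_pos (hΓ : LatticeData Γ) {g : GL (Fin 3) ℂ} (hg : g ∈ Γ) (k : ℤ) {x : V5}
    (hx : x ∈ XB) : 0 < (fderiv ℝ (eltV g.1 k) x).det := by
  rw [(jac_hasFDerivAt_eltV (hΓ.unitary g hg) k hx).fderiv, jac_det]
  have hw : (cle5 x).1 ∈ Ball := hx
  have h1 := jac_smul (hΓ.unitary g hg) k hw
  refine det_pos_of_smul _ ?_ ?_
  · have h2 : Function.Injective (fderiv ℝ (act g.1) (cpow k (cle5 x).1)) :=
      jac_injective (hΓ.unitary g hg) (hΓ.unitary g⁻¹ (Γ.inv_mem hg)) (Units.inv_mul g)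
        (cpow_mem hw)
    exact h2.comp (jac_cL_injective k)
  · by_cases hk : Even k
    · exact Or.inl (h1.1 hk)
    · exact Or.inr (h1.2 hk)

end

end Pool.Agent.MP_f1864b_gt
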