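import Pool.Agent.Lib.MP_f1864b_gt.G.Space2
import Pool.Agent.Lib.MP_f1864b_gt.G.Jac
import Pool.Agent.Lib.MP_f1864b_gt.G.FixOdd
import Pool.Agent.Lib.MP_f1864b_gt.G.FixEven
import Pool.Agent.Lib.MP_f1864b_gt.Defs

set_option autoImplicit false
set_option linter.unusedSectionVars false

/-!
# Assembly of the geometry
-/

namespace Pool.Agent.MP_f1864b_gt

open Matrix Complex Topology Set Filter TopologicalSpace MulAction
open scoped Manifold ContDiff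

noncomputable section

variable {Γ : Subgroup (GL (Fin 3) ℂ)}

/-- The manifold. -/
abbrev MM (Γ : Subgroup (GL (Fin 3) ℂ)) (hΓ : LatticeData Γ) : Type :=
  orbitRel.Quotient (Gt Γ hΓ) XB

theorem neg_mem_XB {x : V5} (hx : x ∈ XB) : -x ∈ XB := by
  rw [mem_XB] at hx ⊢
  rw [map_neg]
  exact neg_mem_Ball hx

/-- `x ↦ -x` on `Ball × ℝ`. -/
def negX (x : XB) : XB := ⟨-(x : V5), neg_mem_XB x.2⟩

theorem negX_negX (x : XB) : negX (negX x) = x := Subtype.ext (neg_neg _)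

theorem act_neg_eq (hΓ : LatticeData Γ) {g : GL (Fin 3) ℂ} (hg : g ∈ Γ) {w : ℂ × ℂ}
    (hw : w ∈ Ball) : -act g.1 w = act (zG * g * zG).1 (-w) := by
  rw [Units.val_mul, act_mul _ unitary_zG (neg_mem_Ball hw), act_zG, neg_neg, Units.val_mul,
    act_mul _ (hΓ.unitary g hg) hw, act_zG]

theorem cpow_neg_vec (k : ℤ) (w : ℂ × ℂ) : cpow k (-w) = -cpow k w := by
  unfold cpow
  split_ifs
  · rfl
  · ext <;> simp [cw]

theorem neg_eltV (hΓ : LatticeData Γ) {g : GL (Fin 3) ℂ} (hg : g ∈ Γ) (k : ℤ) {x : V5}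
    (hx : x ∈ XB) : -eltV g.1 k x = eltV (zG * g * zG).1 (-k) (-x) := by
  apply cle5.injective
  rw [map_neg, cle5_eltV, cle5_eltV, map_neg]
  unfold elt
  refine Prod.ext ?_ ?_
  · simp only [Prod.fst_neg]
    rw [act_neg_eq hΓ hg (cpow_mem hx), cpow_neg, cpow_neg_vec]
  · simp only [Prod.snd_neg]
    push_cast
    ring

theorem negX_smul (hΓ : LatticeData Γ) (φ : Gt Γ hΓ) (x : XB) :
    ∃ ψ : Gt Γ hΓ, ∀ y : XB, negX (φ • y) = ψ • negX y := by
  obtain ⟨g, hg, k, h⟩ := smul_Gt φ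
  obtain ⟨ψ, hψ⟩ := exists_Gt hΓ (hΓ.z_conj_mem g hg) (-k)
  refine ⟨ψ, fun y => ?_⟩
  apply Subtype.ext
  rw [hψ]
  change -((φ • y : XB) : V5) = eltV _ _ (-(y : V5))
  rw [h, neg_eltV hΓ hg k y.2]

/-- The involution of the manifold induced by `x ↦ -x`. -/
def tauM (Γ : Subgroup (GL (Fin 3) ℂ)) (hΓ : LatticeData Γ) : MM Γ hΓ → MM Γ hΓ :=
  Quotient.lift (fun x => mkQ (Gt Γ hΓ) (negX x)) (by
    intro x y hxy
    obtain ⟨φ, hφ⟩ := hxy
    obtain ⟨ψ, hψ⟩ := negX_smul hΓ φ y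
    have hφ' : φ • y = x := hφ
    change mkQ (Gt Γ hΓ) (negX x) = mkQ (Gt Γ hΓ) (negX y)
    rw [← hφ', hψ, mkQ_smul])

theorem tauM_mkQ (hΓ : LatticeData Γ) (x : XB) :
    tauM Γ hΓ (mkQ (Gt Γ hΓ) x) = mkQ (Gt Γ hΓ) (negX x) := rfl

theorem tauM_tauM (hΓ : LatticeData Γ) (p : MM Γ hΓ) : tauM Γ hΓ (tauM Γ hΓ p) = p := by
  obtain ⟨x, rfl⟩ := mkQ_surjective p
  rw [tauM_mkQ, tauM_mkQ, negX_negX]

theorem contMDiff_smul_Gt (hΓ : LatticeData Γ) (φ : Gt Γ hΓ) :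
    ContMDiff 𝓘(ℝ, V5) 𝓘(ℝ, V5) ∞ (fun x : XB => φ • x) :=
  contMDiff_smul_opens (F := FG hΓ) (FG_smul hΓ) (FG_contDiffOn hΓ) φ

instance isManifold_MM (hΓ : LatticeData Γ) : IsManifold (𝓡 5) ∞ (MM Γ hΓ) :=
  isManifold_quot (contMDiff_smul_Gt hΓ)

theorem contMDiff_negX : ContMDiff 𝓘(ℝ, V5) 𝓘(ℝ, V5) ∞ negX := by
  rw [← ContMDiff.subtypeVal_comp_iff]
  have h1 : (Subtype.val ∘ negX) = fun x : XB => -(x : V5) := rfl
  rw [h1]
  intro x
  have h2 : ContMDiffAt 𝓘(ℝ, V5) 𝓘(ℝ, V5) ∞ (fun v : V5 => -v) (x : V5) :=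
    contDiff_neg.contDiffAt.contMDiffAt
  exact h2.comp x (contMDiff_subtype_val x)

theorem contMDiff_tauM (hΓ : LatticeData Γ) : ContMDiff (𝓡 5) (𝓡 5) ∞ (tauM Γ hΓ) := by
  intro p
  obtain ⟨x, rfl⟩ := mkQ_surjective p
  refine contMDiffAt_of_comp_mkQ (contMDiff_smul_Gt hΓ) ?_
  exact ((contMDiff_mkQ (contMDiff_smul_Gt hΓ)) (negX x)).comp x (contMDiff_negX x)

/-- A lift of the involution with a fixed point. -/
theorem tauM_deriv (hΓ : LatticeData Γ) {x : XB} {g : GL (Fin 3) ℂ} (hg : g ∈ Γ) {k : ℤ}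
    (hfix : eltV g.1 k (-(x : V5)) = x) :
    tauM Γ hΓ (mkQ (Gt Γ hΓ) x) = mkQ (Gt Γ hΓ) x ∧
      ∃ A : V5 ≃L[ℝ] V5, (Dold.dAt (tauM Γ hΓ) (mkQ (Gt Γ hΓ) x) : V5 → V5) =
        fun v => A.symm (fderiv ℝ (fun y => eltV g.1 k (-y)) x (A v)) := by
  obtain ⟨φ, hgk⟩ := exists_Gt hΓ hg k
  have hφ : φ • negX x = x := by
    apply Subtype.ext
    rw [hgk]
    exact hfix
  refine ⟨?_, ?_⟩
  · rw [tauM_mkQ, ← mkQ_smul φ (negX x), hφ]
  refine mfderiv_fixed (F := FG hΓ) (FG_smul hΓ) (FG_contDiffOn hΓ)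
    (T := fun y => φ • negX y) (T' := fun y => eltV g.1 k (-y)) (fun y => hgk (negX y))
    (fun y => ?_) hφ ?_
  · rw [tauM_mkQ]
    exact (mkQ_smul φ (negX y)).symm
  · have h1 : ContDiffAt ℝ ∞ (eltV g.1 k) (-(x : V5)) :=
      (contDiffOn_eltV (hΓ.unitary g hg) k).contDiffAt (XB.isOpen.mem_nhds (neg_mem_XB x.2))
    exact h1.comp (x : V5) contDiff_neg.contDiffAt

/-- At a fixed point of the involution there is a lift with a fixed point. -/
theorem tauM_fixed (hΓ : LatticeData Γ) {x : XB}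
    (h : tauM Γ hΓ (mkQ (Gt Γ hΓ) x) = mkQ (Gt Γ hΓ) x) :
    ∃ g ∈ Γ, ∃ k : ℤ, eltV g.1 k (-(x : V5)) = x := by
  rw [tauM_mkQ] at h
  obtain ⟨φ, hφ⟩ := mkQ_eq.1 h.symm
  obtain ⟨g, hg, k, hgk⟩ := smul_Gt φ
  refine ⟨g, hg, k, ?_⟩
  have := hgk (negX x)
  rw [hφ] at this
  exact this.symm

/-- the height of a fixed point -/
theorem fixed_height {g : GL (Fin 3) ℂ} {k : ℤ} {x : V5} (hfix : eltV g.1 k (-x) = x) :
    (k : ℝ) = 2 * (cle5 x).2 := by
  have h3 := congrArg (fun y => (cle5 y).2) hfix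
  simp only [cle5_eltV] at h3
  change (cle5 (-x)).2 + (k : ℝ) = (cle5 x).2 at h3
  rw [map_neg] at h3
  simp only [Prod.snd_neg] at h3
  linarith

theorem tauM_dim (hΓ : LatticeData Γ) (p : MM Γ hΓ) (hp : tauM Γ hΓ p = p)
    (S : Submodule ℝ V5) (hS : ∀ v ∈ S, Dold.dAt (tauM Γ hΓ) p v = v) :
    Module.finrank ℝ S ≤ 2 := by
  obtain ⟨x, rfl⟩ := mkQ_surjective p
  obtain ⟨g, hg, k, hfix⟩ := tauM_fixed hΓ hp
  obtain ⟨-, A, hA⟩ := tauM_deriv hΓ hg hfix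
  have h1 : ∀ v ∈ S.map A.toLinearMap,
      fderiv ℝ (fun y => eltV g.1 k (-y)) x v = v := by
    rintro _ ⟨v, hv, rfl⟩
    have h2 := hS v hv
    have h3 := congrFun hA v
    rw [h2] at h3
    have h4 := congrArg A h3
    rw [ContinuousLinearEquiv.apply_symm_apply] at h4
    exact h4.symm
  have h5 : Module.finrank ℝ (S.map A.toLinearMap) = Module.finrank ℝ S :=
    LinearEquiv.finrank_map_eq A.toLinearEquiv S
  rw [← h5]
  by_cases hk : Even k
  · exact (fixed_even hΓ hg hk x.2 hfix).1 _ h1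
  · exact (fixed_odd hΓ hg hk x.2 hfix).1 _ h1

theorem fderiv_eq_neg (hΓ : LatticeData Γ) {x : XB} {g : GL (Fin 3) ℂ} (hg : g ∈ Γ) {k : ℤ}
    (hfix : eltV g.1 k (-(x : V5)) = x) :
    Dold.dAt (tauM Γ hΓ) (mkQ (Gt Γ hΓ) x) = -ContinuousLinearMap.id ℝ V5 ↔
      ∀ v, fderiv ℝ (fun y => eltV g.1 k (-y)) x v = -v := by
  obtain ⟨-, A, hA⟩ := tauM_deriv hΓ hg hfix
  constructor
  · intro hd v
    have h3 := congrFun hA (A.symm v)
    rw [hd] at h3
    have h4 := congrArg A h3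
    rw [ContinuousLinearEquiv.apply_symm_apply, ContinuousLinearEquiv.apply_symm_apply] at h4
    rw [← h4]
    change A (-(A.symm v)) = -v
    rw [map_neg, ContinuousLinearEquiv.apply_symm_apply]
  · intro h
    ext1 v
    have h3 := congrFun hA v
    rw [h3, h, map_neg, ContinuousLinearEquiv.symm_apply_apply]
    rfl

/-- The isolated fixed points come from the special points. -/
theorem isoFix_iff (hΓ : LatticeData Γ) (p : MM Γ hΓ) :
    p ∈ Dold.isoFix (tauM Γ hΓ) ↔ ∃ w, ∃ hw : w ∈ Ball, Special Γ w ∧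
      mkQ (Gt Γ hΓ) (pt w hw 0) = p := by
  constructor
  · rintro ⟨hp, hd⟩
    obtain ⟨x, rfl⟩ := mkQ_surjective p
    obtain ⟨g, hg, k, hfix⟩ := tauM_fixed hΓ hp
    have h1 := (fderiv_eq_neg hΓ hg hfix).1 hd
    by_cases hk : Even k
    · -- move the point to height `0`
      obtain ⟨m, hm⟩ := hk
      have hr : (cle5 (x : V5)).2 = m := by
        have h3 := fixed_height hfix
        have h4 : (k : ℝ) = m + m := by rw [hm]; push_cast; ring
        linarith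
      obtain ⟨ψ, hψ⟩ := exists_Gt hΓ Γ.one_mem (-m)
      have h5 : cle5 ((ψ • x : XB) : V5) = (cpow m (cle5 (x : V5)).1, 0) := by
        rw [hψ, cle5_eltV]
        unfold elt
        rw [cpow_neg]
        refine Prod.ext ?_ ?_
        · simp [act_one]
        · simp only
          rw [hr]
          push_cast
          ring
      have hw : cpow m (cle5 (x : V5)).1 ∈ Ball := cpow_mem x.2
      have h6 : ψ • x = pt _ hw 0 := by
        apply Subtype.ext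
        apply cle5.injective
        rw [cle5_pt, h5]
      have h7 : mkQ (Gt Γ hΓ) x = mkQ (Gt Γ hΓ) (pt _ hw 0) := by rw [← h6, mkQ_smul]
      refine ⟨_, hw, ?_, h7.symm⟩
      rw [h7] at hp hd
      obtain ⟨g', hg', k', hfix'⟩ := tauM_fixed hΓ hp
      have h8 := (fderiv_eq_neg hΓ hg' hfix').1 hd
      have h9 : k' = 0 := by
        have h10 := fixed_height hfix'
        rw [cle5_pt] at h10
        have h11 : (k' : ℝ) = 0 := by linarith
        exact_mod_cast h11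
      subst h9
      have h12 := (fixed_even hΓ hg' Even.zero (pt _ hw 0).2 hfix').2.1 h8
      rw [cle5_pt] at h12
      exact ⟨g', hg', h12⟩
    · exact absurd h1 (fixed_odd hΓ hg hk x.2 hfix).2
  · rintro ⟨w, hw, ⟨g, hg, hgz⟩, rfl⟩
    have hx : eltV g.1 0 (-((pt w hw 0 : XB) : V5)) = pt w hw 0 := by
      apply cle5.injective
      rw [cle5_eltV, map_neg, cle5_pt]
      unfold elt
      refine Prod.ext ?_ ?_
      · change act g.1 (cpow 0 (-w)) = w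
        have h1 : cpow 0 (-w) = -w := by simp [cpow]
        rw [h1]
        exact special_fixed hw hgz
      · simp
    refine ⟨(tauM_deriv hΓ hg hx).1, (fderiv_eq_neg hΓ hg hx).2 ?_⟩
    refine (fixed_even hΓ hg Even.zero (pt w hw 0).2 hx).2.2 ?_
    rw [cle5_pt]
    exact hgz

theorem mkQ_pt_eq (hΓ : LatticeData Γ) {w w' : ℂ × ℂ} (hw : w ∈ Ball) (hw' : w' ∈ Ball) :
    mkQ (Gt Γ hΓ) (pt w' hw' 0) = mkQ (Gt Γ hΓ) (pt w hw 0) ↔ w' ∈ orb Γ w := by
  rw [mkQ_eq]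
  constructor
  · rintro ⟨φ, hφ⟩
    obtain ⟨g, hg, k, hgk⟩ := smul_Gt φ
    have h1 := hgk (pt w hw 0)
    rw [hφ] at h1
    have h2 := congrArg cle5 h1
    rw [cle5_pt, cle5_eltV, cle5_pt] at h2
    unfold elt at h2
    have h3 := congrArg Prod.snd h2
    simp only [zero_add] at h3
    have h4 : k = 0 := by exact_mod_cast h3.symm
    subst h4
    have h5 := congrArg Prod.fst h2
    have h6 : cpow 0 w = w := by simp [cpow]
    simp only [h6] at h5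
    exact ⟨g, hg, h5.symm⟩
  · rintro ⟨g, hg, rfl⟩
    obtain ⟨φ, hφ⟩ := exists_Gt hΓ hg 0
    refine ⟨φ, ?_⟩
    apply Subtype.ext
    rw [hφ]
    apply cle5.injective
    rw [cle5_pt, cle5_eltV, cle5_pt]
    unfold elt
    refine Prod.ext ?_ ?_
    · have h6 : cpow 0 w = w := by simp [cpow]
      simp only [h6]
    · simp

theorem ncard_isoFix (hΓ : LatticeData Γ) :
    (Dold.isoFix (tauM Γ hΓ)).ncard = (specialOrbits Γ).ncard := by
  let F : MM Γ hΓ → Set (ℂ × ℂ) := fun p => {w' | ∃ h : w' ∈ Ball, mkQ (Gt Γ hΓ) (pt w' h 0) = p}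
  have hF : ∀ w (hw : w ∈ Ball), F (mkQ (Gt Γ hΓ) (pt w hw 0)) = orb Γ w := by
    intro w hw
    ext w'
    constructor
    · rintro ⟨h, he⟩
      exact (mkQ_pt_eq hΓ hw h).1 he
    · intro h
      have hw' : w' ∈ Ball := by
        obtain ⟨g, hg, rfl⟩ := h
        exact act_mem_Ball (hΓ.unitary g hg) hw
      exact ⟨hw', (mkQ_pt_eq hΓ hw hw').2 h⟩
  have himg : F '' Dold.isoFix (tauM Γ hΓ) = specialOrbits Γ := by
    ext o
    constructor
    · rintro ⟨p, hp, rfl⟩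
      obtain ⟨w, hw, hs, rfl⟩ := (isoFix_iff hΓ p).1 hp
      rw [hF]
      exact ⟨w, ⟨hw, hs⟩, rfl⟩
    · rintro ⟨w, ⟨hw, hs⟩, rfl⟩
      exact ⟨_, (isoFix_iff hΓ _).2 ⟨w, hw, hs, rfl⟩, hF w hw⟩
  rw [← himg]
  symm
  refine Set.ncard_image_of_injOn ?_
  intro p hp q hq hpq
  obtain ⟨w, hw, hs, rfl⟩ := (isoFix_iff hΓ p).1 hp
  have h1 : w ∈ F (mkQ (Gt Γ hΓ) (pt w hw 0)) := ⟨hw, rfl⟩
  rw [hpq] at h1
  exact h1.2

theorem orientable_MM (hΓ : LatticeData Γ) : Dold.OrientableManifold 5 (MM Γ hΓ) := by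
  refine ⟨atlas V5 (MM Γ hΓ), ?_, ?_, ?_⟩
  · exact IsManifold.subset_maximalAtlas
  · intro x
    exact ⟨_, chart_mem_atlas V5 x, mem_chart_source V5 x⟩
  · intro e he e' he' x hx
    refine det_pos_quot (F := FG hΓ) (FG_smul hΓ) ?_ he he' hx
    intro φ y hy
    obtain ⟨g, hg, k, h, -⟩ := FG_spec hΓ φ
    rw [h]
    exact det_eltV_pos hΓ hg k hy

theorem aspherical_MM (hΓ : LatticeData Γ) : Dold.Aspherical (MM Γ hΓ) :=
  ⟨XB, inferInstance, mkQ (Gt Γ hΓ), contractible_XB,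
    (mkQ_covering (G := Gt Γ hΓ) (X := XB)).isCoveringMap, mkQ_surjective⟩

theorem exists_central (hΓ : LatticeData Γ) :
    ∃ φ : Gt Γ hΓ, φ ∈ Subgroup.center (Gt Γ hΓ) ∧ φ ≠ 1 := by
  obtain ⟨φ, hφ⟩ := exists_Gt hΓ Γ.one_mem 2
  refine ⟨φ, ?_, ?_⟩
  · rw [Subgroup.mem_center_iff]
    intro ψ
    obtain ⟨g, hg, k, h⟩ := smul_Gt ψ
    apply Subtype.ext
    apply Equiv.ext
    intro x
    apply Subtype.ext
    have h1 : (((ψ * φ) • x : XB) : V5) = eltV g.1 k (eltV 1 2 x) := by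
      rw [mul_smul, h, hφ]
      rfl
    have h2 : (((φ * ψ) • x : XB) : V5) = eltV 1 2 (eltV g.1 k x) := by
      rw [mul_smul, hφ, h]
      rfl
    refine h1.trans (Eq.trans ?_ h2.symm)
    apply cle5.injective
    rw [cle5_eltV, cle5_eltV, cle5_eltV, cle5_eltV]
    unfold elt
    have h3 : ∀ w, cpow 2 w = w := fun w => by simp [cpow]
    simp only [h3, act_one]
    refine Prod.ext rfl ?_
    simp only
    push_cast
    ring
  · intro h
    have h1 := hφ (pt 0 zero_mem_Ball 0)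
    rw [h, one_smul] at h1
    have h2 := congrArg cle5 h1
    rw [cle5_eltV, cle5_pt] at h2
    unfold elt at h2
    have h3 := congrArg Prod.snd h2
    simp at h3

/-- The geometry. -/
theorem geometry_of_latticeData (hΓ : LatticeData Γ) :
    ∃ (M : Type) (_ : TopologicalSpace M) (_ : ChartedSpace Dold.R5 M)
    (_ : IsManifold (𝓡 5) ∞ M) (_ : CompactSpace M) (_ : T2Space M) (_ : ConnectedSpace M),
    Dold.OrientableManifold 5 M ∧ Dold.Aspherical M ∧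
      (∀ x : M, Subgroup.center (FundamentalGroup M x) ≠ ⊥) ∧
      ∃ τ : M → M, ContMDiff (𝓡 5) (𝓡 5) ∞ τ ∧ (∀ p, τ (τ p) = p) ∧
        (∀ p, τ p = p → ∀ S : Submodule ℝ Dold.R5, (∀ v ∈ S, Dold.dAt τ p v = v) →
          Module.finrank ℝ S ≤ 2) ∧
        ((Dold.isoFix τ).Finite → Odd (Dold.isoFix τ).ncard) := by
  have hcompact : CompactSpace (MM Γ hΓ) := by
    obtain ⟨K, hK, hcov⟩ := exists_compact_Gt hΓ
    exact compactSpace_quot K hK hcov
  have hconn : ConnectedSpace (MM Γ hΓ) := connectedSpace_quot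
  refine ⟨MM Γ hΓ, inferInstance, inferInstance, isManifold_MM hΓ, hcompact, t2Space_quot, hconn,
    orientable_MM hΓ, aspherical_MM hΓ, ?_, tauM Γ hΓ, contMDiff_tauM hΓ, tauM_tauM hΓ,
    tauM_dim hΓ, fun _ => ?_⟩
  · intro x
    obtain ⟨φ, hφ, hφ1⟩ := exists_central hΓ
    obtain ⟨γ, hγ, hγ1⟩ := center_quot φ hφ hφ1 x
    intro hbot
    rw [hbot, Subgroup.mem_bot] at hγ
    exact hγ1 hγ
  · rw [ncard_isoFix]
    exact hΓ.odd

end

end Pool.Agent.MP_f1864b_gt
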