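import Mathlib

set_option autoImplicit false
set_option linter.unusedSectionVars false

/-!
# Quotients of smooth manifolds by free properly discontinuous smooth actions
-/

namespace Pool.Agent.MP_f1864b_gt

open Set Filter Topology MulAction
open scoped Manifold ContDiff

noncomputable section

section Quot

variable {V : Type*} [NormedAddCommGroup V] [NormedSpace ℝ V]
  {X : Type*} [TopologicalSpace X] [ChartedSpace V X]
  {G : Type*} [Group G] [MulAction G X]
  [ProperlyDiscontinuousSMul G X] [ContinuousConstSMul G X] [IsCancelSMul G X]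
  [T2Space X] [LocallyCompactSpace X]

variable (G) in
/-- The projection on the quotient. -/
def mkQ (x : X) : orbitRel.Quotient G X := Quotient.mk _ x

theorem mkQ_covering : IsQuotientCoveringMap (mkQ G : X → orbitRel.Quotient G X) G :=
  isQuotientCoveringMap_quotientMk_of_properlyDiscontinuousSMul

theorem mkQ_eq {x y : X} : mkQ G x = mkQ G y ↔ ∃ g : G, g • y = x :=
  (mkQ_covering (G := G) (X := X)).apply_eq_iff_mem_orbit

theorem mkQ_smul (g : G) (x : X) : mkQ G (g • x) = mkQ G x := mkQ_eq.2 ⟨g, rfl⟩

theorem mkQ_surjective : Function.Surjective (mkQ G : X → orbitRel.Quotient G X) :=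
  Quotient.mk_surjective

theorem mkQ_continuous : Continuous (mkQ G : X → orbitRel.Quotient G X) :=
  (mkQ_covering (G := G) (X := X)).continuous

theorem mkQ_localHomeo : IsLocalHomeomorph (mkQ G : X → orbitRel.Quotient G X) :=
  (mkQ_covering (G := G) (X := X)).isCoveringMap.isLocalHomeomorph

variable (G) in
/-- The local inverse of the projection at `x`. -/
def linv (x : X) : OpenPartialHomeomorph (orbitRel.Quotient G X) X :=
  (mkQ_localHomeo (G := G) (X := X)).localInverseAt x

theorem linv_symm (x : X) : ((linv G x).symm : X → orbitRel.Quotient G X) = mkQ G :=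
  (mkQ_localHomeo (G := G) (X := X)).localInverseAt_symm x

theorem mem_linv_target (x : X) : x ∈ (linv G x).target :=
  (mkQ_localHomeo (G := G) (X := X)).self_mem_localInverseAt_target

theorem mem_linv_source (x : X) : mkQ G x ∈ (linv G x).source :=
  (mkQ_localHomeo (G := G) (X := X)).apply_self_mem_localInverseAt_source

theorem linv_mkQ {x m : X} (hm : m ∈ (linv G x).target) : linv G x (mkQ G m) = m := by
  rw [← linv_symm (G := G) x]
  exact (linv G x).right_inv hm

theorem mkQ_linv {x : X} {q : orbitRel.Quotient G X} (hq : q ∈ (linv G x).source) :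
    mkQ G (linv G x q) = q := by
  rw [← linv_symm (G := G) x]
  exact (linv G x).left_inv hq

/-- Near a point the composition of the projection with a local inverse is the action of an
element of the group. -/
theorem linv_mkQ_eventually {x m : X} (hm : mkQ G m ∈ (linv G x).source) :
    ∃ g : G, linv G x (mkQ G m) = g • m ∧ ∀ᶠ n in 𝓝 m, linv G x (mkQ G n) = g • n := by
  have h1 : mkQ G (linv G x (mkQ G m)) = mkQ G m := mkQ_linv hm
  obtain ⟨g, hg⟩ := mkQ_eq.1 h1
  refine ⟨g, hg.symm, ?_⟩
  have h2 : g • m ∈ (linv G x).target := by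
    rw [hg]
    exact (linv G x).map_source hm
  have h3 : ∀ᶠ n in 𝓝 m, g • n ∈ (linv G x).target :=
    (continuous_const_smul g).continuousAt.eventually_mem ((linv G x).open_target.mem_nhds h2)
  filter_upwards [h3] with n hn
  rw [← mkQ_smul g n, linv_mkQ hn]

theorem chartAt_quot (q : orbitRel.Quotient G X) :
    ∃ x : X, mkQ G x = q ∧ chartAt V q = (linv G x).trans (chartAt V x) :=
  ⟨_, (mkQ_surjective (G := G) (X := X)).hasRightInverse.choose_spec q, rfl⟩

theorem mem_atlas_quot {e : OpenPartialHomeomorph (orbitRel.Quotient G X) V}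
    (he : e ∈ atlas V (orbitRel.Quotient G X)) :
    ∃ x : X, e = (linv G x).trans (chartAt V x) := by
  obtain ⟨q, hq⟩ := he
  exact ⟨_, hq.symm⟩

variable [IsManifold 𝓘(ℝ, V) ∞ X]

theorem isManifold_quot
    (hsm : ∀ g : G, ContMDiff 𝓘(ℝ, V) 𝓘(ℝ, V) ∞ (fun x : X => g • x)) :
    IsManifold 𝓘(ℝ, V) ∞ (orbitRel.Quotient G X) := by
  refine isManifold_of_contDiffOn _ _ _ fun e e' he he' => ?_
  obtain ⟨x, rfl⟩ := mem_atlas_quot he
  obtain ⟨x', rfl⟩ := mem_atlas_quot he'
  simp only [modelWithCornersSelf_coe, modelWithCornersSelf_coe_symm, Function.comp_id,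
    Function.id_comp, preimage_id, range_id, inter_univ]
  intro y hy
  refine ContDiffAt.contDiffWithinAt ?_
  set e := (linv G x).trans (chartAt V x) with he0
  set e' := (linv G x').trans (chartAt V x') with he0'
  have hy1 : y ∈ e.target := by
    have := hy.1
    simpa using this
  have hy2 : e.symm y ∈ e'.source := hy.2
  set m := (chartAt V x).symm y with hm
  have hyc : y ∈ (chartAt V x).target := by
    have := hy1
    rw [he0, OpenPartialHomeomorph.trans_target] at this
    exact this.1
  have hsy : ∀ y', e.symm y' = mkQ G ((chartAt V x).symm y') := by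
    intro y'
    rw [he0, OpenPartialHomeomorph.coe_trans_symm]
    change (linv G x).symm _ = _
    rw [linv_symm]
  rw [hsy] at hy2
  have hy3 : mkQ G m ∈ (linv G x').source := by
    have := hy2
    rw [he0', OpenPartialHomeomorph.trans_source] at this
    exact this.1
  have hy4 : linv G x' (mkQ G m) ∈ (chartAt V x').source := by
    have := hy2
    rw [he0', OpenPartialHomeomorph.trans_source] at this
    exact this.2
  obtain ⟨g, hg, hev⟩ := linv_mkQ_eventually hy3
  have hcs : ContMDiffAt 𝓘(ℝ, V) 𝓘(ℝ, V) ∞ (chartAt V x).symm y :=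
    (contMDiffOn_chart_symm (I := 𝓘(ℝ, V)) (x := x)).contMDiffAt
      ((chartAt V x).open_target.mem_nhds hyc)
  have hc' : ContMDiffAt 𝓘(ℝ, V) 𝓘(ℝ, V) ∞ (chartAt V x') (g • m) := by
    refine (contMDiffOn_chart (I := 𝓘(ℝ, V)) (x := x')).contMDiffAt
      ((chartAt V x').open_source.mem_nhds ?_)
    rw [← hg]
    exact hy4
  have hcomp : ContMDiffAt 𝓘(ℝ, V) 𝓘(ℝ, V) ∞
      (fun y' => (chartAt V x') (g • (chartAt V x).symm y')) y :=
    hc'.comp y (((hsm g).contMDiffAt).comp y hcs)
  have hcd := contMDiffAt_iff_contDiffAt.1 hcomp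
  refine hcd.congr_of_eventuallyEq ?_
  have hcont : ContinuousAt (chartAt V x).symm y := hcs.continuousAt
  filter_upwards [hcont.eventually hev] with y' hy'
  change e' (e.symm y') = _
  rw [hsy, he0']
  change (chartAt V x') (linv G x' _) = _
  rw [hy']

end Quot

end

end Pool.Agent.MP_f1864b_gt
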