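import Pool.Agent.Lib.MP_f1864b_gt.G.Quot

set_option autoImplicit false
set_option linter.unusedSectionVars false

/-!
# Smooth maps from and to the quotient
-/

namespace Pool.Agent.MP_f1864b_gt

open Set Filter Topology MulAction
open scoped Manifold ContDiff

noncomputable section

section Quot

variable {V : Type*} [NormedAddCommGroup V] [NormedSpace ℝ V]
  {X : Type*} [TopologicalSpace X] [ChartedSpace V X]
  {G : Type*} [Group G] [MulAction G X]
  [ProperlyDiscontinuousSMul G X] [ContinuousConstSMul G X] [IsCancelSMul G X]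
  [T2Space X] [LocallyCompactSpace X] [IsManifold 𝓘(ℝ, V) ∞ X]

/-- The projection is smooth. -/
theorem contMDiff_mkQ (hsm : ∀ g : G, ContMDiff 𝓘(ℝ, V) 𝓘(ℝ, V) ∞ (fun x : X => g • x)) :
    ContMDiff 𝓘(ℝ, V) 𝓘(ℝ, V) ∞ (mkQ G : X → orbitRel.Quotient G X) := by
  have := isManifold_quot hsm
  intro m
  obtain ⟨x, hx, hc⟩ := chartAt_quot (V := V) (mkQ G m)
  have hms : mkQ G m ∈ (linv G x).source := by
    have := mem_chart_source V (mkQ G m)
    rw [hc, OpenPartialHomeomorph.trans_source] at this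
    exact this.1
  have hms2 : linv G x (mkQ G m) ∈ (chartAt V x).source := by
    have := mem_chart_source V (mkQ G m)
    rw [hc, OpenPartialHomeomorph.trans_source] at this
    exact this.2
  obtain ⟨g, hg, hev⟩ := linv_mkQ_eventually hms
  rw [hg] at hms2
  -- the map in the chart
  have h1 : ContMDiffAt 𝓘(ℝ, V) 𝓘(ℝ, V) ∞ (fun n => (chartAt V x) (g • n)) m := by
    have h2 : ContMDiffAt 𝓘(ℝ, V) 𝓘(ℝ, V) ∞ (chartAt V x) (g • m) :=
      (contMDiffOn_chart (I := 𝓘(ℝ, V)) (x := x)).contMDiffAt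
        ((chartAt V x).open_source.mem_nhds hms2)
    exact h2.comp m ((hsm g).contMDiffAt)
  have h3 : (chartAt V (mkQ G m)).target ∈ 𝓝 ((chartAt V x) (g • m)) := by
    refine (chartAt V (mkQ G m)).open_target.mem_nhds ?_
    have := (chartAt V (mkQ G m)).map_source (mem_chart_source V (mkQ G m))
    rw [hc] at this ⊢
    change (chartAt V x) (linv G x (mkQ G m)) ∈ _ at this
    rwa [hg] at this
  have h4 : ContMDiffAt 𝓘(ℝ, V) 𝓘(ℝ, V) ∞ (chartAt V (mkQ G m)).symm
      ((chartAt V x) (g • m)) :=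
    (contMDiffOn_chart_symm (I := 𝓘(ℝ, V)) (x := mkQ G m)).contMDiffAt h3
  have h5 := h4.comp m h1
  refine h5.congr_of_eventuallyEq ?_
  have h6 : ∀ᶠ n in 𝓝 m, mkQ G n ∈ (chartAt V (mkQ G m)).source :=
    (mkQ_continuous (G := G)).continuousAt.eventually_mem
      ((chartAt V (mkQ G m)).open_source.mem_nhds (mem_chart_source V _))
  filter_upwards [hev, h6] with n hn hn'
  change mkQ G n = (chartAt V (mkQ G m)).symm ((chartAt V x) (g • n))
  have h7 : (chartAt V x) (g • n) = (chartAt V (mkQ G m)) (mkQ G n) := by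
    rw [hc]
    change _ = (chartAt V x) (linv G x (mkQ G n))
    rw [hn]
  rw [h7, (chartAt V (mkQ G m)).left_inv hn']

/-- The local inverses of the projection are smooth. -/
theorem contMDiffAt_linv (hsm : ∀ g : G, ContMDiff 𝓘(ℝ, V) 𝓘(ℝ, V) ∞ (fun x : X => g • x))
    {x : X} {q : orbitRel.Quotient G X} (hq : q ∈ (linv G x).source) :
    ContMDiffAt 𝓘(ℝ, V) 𝓘(ℝ, V) ∞ (linv G x) q := by
  have := isManifold_quot hsm
  obtain ⟨x', hx', hc⟩ := chartAt_quot (V := V) q
  have hqs : q ∈ (linv G x').source := by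
    have := mem_chart_source V q
    rw [hc, OpenPartialHomeomorph.trans_source] at this
    exact this.1
  have hqs2 : linv G x' q ∈ (chartAt V x').source := by
    have := mem_chart_source V q
    rw [hc, OpenPartialHomeomorph.trans_source] at this
    exact this.2
  set m := linv G x' q with hm
  have hmq : mkQ G m = q := mkQ_linv hqs
  rw [← hmq] at hq
  obtain ⟨g, hg, hev⟩ := linv_mkQ_eventually hq
  -- the chart
  have h1 : ContMDiffAt 𝓘(ℝ, V) 𝓘(ℝ, V) ∞ (chartAt V q) q :=
    (contMDiffOn_chart (I := 𝓘(ℝ, V)) (x := q)).contMDiffAt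
      ((chartAt V q).open_source.mem_nhds (mem_chart_source V q))
  have h2 : (chartAt V q) q = (chartAt V x') m := by
    rw [hc]
    rfl
  have h3 : ContMDiffAt 𝓘(ℝ, V) 𝓘(ℝ, V) ∞ (chartAt V x').symm ((chartAt V q) q) := by
    rw [h2]
    exact (contMDiffOn_chart_symm (I := 𝓘(ℝ, V)) (x := x')).contMDiffAt
      ((chartAt V x').open_target.mem_nhds ((chartAt V x').map_source hqs2))
  have h4 : ContMDiffAt 𝓘(ℝ, V) 𝓘(ℝ, V) ∞
      (fun q' => g • (chartAt V x').symm ((chartAt V q) q')) q :=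
    ((hsm g).contMDiffAt).comp q (h3.comp q h1)
  refine h4.congr_of_eventuallyEq ?_
  have h5 : ContinuousAt (linv G x') q := (linv G x').continuousAt hqs
  have h6 : ∀ᶠ q' in 𝓝 q, linv G x' q' ∈ (chartAt V x').source :=
    h5.eventually_mem ((chartAt V x').open_source.mem_nhds hqs2)
  have h7 : ∀ᶠ q' in 𝓝 q, q' ∈ (linv G x').source :=
    (linv G x').open_source.mem_nhds hqs
  have h8 : ∀ᶠ q' in 𝓝 q, linv G x (mkQ G (linv G x' q')) = g • linv G x' q' :=
    h5.eventually hev
  filter_upwards [h6, h7, h8] with q' h6' h7' h8'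
  change linv G x q' = g • (chartAt V x').symm ((chartAt V q) q')
  rw [mkQ_linv h7'] at h8'
  rw [h8', hc]
  change _ = g • (chartAt V x').symm ((chartAt V x') (linv G x' q'))
  rw [(chartAt V x').left_inv h6']

variable {W : Type*} [NormedAddCommGroup W] [NormedSpace ℝ W] {N : Type*} [TopologicalSpace N]
  [ChartedSpace W N]

/-- A map from the quotient is smooth if its composition with the projection is. -/
theorem contMDiffAt_of_comp_mkQ
    (hsm : ∀ g : G, ContMDiff 𝓘(ℝ, V) 𝓘(ℝ, V) ∞ (fun x : X => g • x))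
    {f : orbitRel.Quotient G X → N} {x : X}
    (h : ContMDiffAt 𝓘(ℝ, V) 𝓘(ℝ, W) ∞ (fun y => f (mkQ G y)) x) :
    ContMDiffAt 𝓘(ℝ, V) 𝓘(ℝ, W) ∞ f (mkQ G x) := by
  have h1 := contMDiffAt_linv hsm (mem_linv_source (G := G) x)
  have h2 : linv G x (mkQ G x) = x := linv_mkQ (mem_linv_target x)
  have h3 : ContMDiffAt 𝓘(ℝ, V) 𝓘(ℝ, W) ∞ (fun q => f (mkQ G (linv G x q))) (mkQ G x) :=
    ContMDiffAt.comp (g := fun y => f (mkQ G y)) (f := linv G x) (mkQ G x)
      (by rw [h2]; exact h) h1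
  refine h3.congr_of_eventuallyEq ?_
  filter_upwards [(linv G x).open_source.mem_nhds (mem_linv_source (G := G) x)] with q hq
  change f q = f (mkQ G (linv G x q))
  rw [mkQ_linv hq]

end Quot

end

end Pool.Agent.MP_f1864b_gt
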