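import Pool.Agent.Lib.MP_f1864b_gt.G.Quot2

set_option autoImplicit false
set_option linter.unusedSectionVars false

/-!
# Global properties of the quotient
-/

namespace Pool.Agent.MP_f1864b_gt

open Set Filter Topology MulAction TopologicalSpace
open scoped Manifold ContDiff

noncomputable section

section General

variable {X : Type*} [TopologicalSpace X]
  {G : Type*} [Group G] [MulAction G X]
  [ProperlyDiscontinuousSMul G X] [ContinuousConstSMul G X] [IsCancelSMul G X]
  [T2Space X] [LocallyCompactSpace X]

theorem t2Space_quot : T2Space (orbitRel.Quotient G X) :=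
  t2Space_of_properlyDiscontinuousSMul_of_t2Space (Γ := G) (T := X)

theorem compactSpace_quot (K : Set X) (hK : IsCompact K) (h : ∀ x : X, ∃ g : G, g • x ∈ K) :
    CompactSpace (orbitRel.Quotient G X) := by
  refine ⟨?_⟩
  have h1 : (mkQ G : X → orbitRel.Quotient G X) '' K = univ := by
    ext q
    simp only [mem_image, mem_univ, iff_true]
    obtain ⟨x, rfl⟩ := mkQ_surjective q
    obtain ⟨g, hg⟩ := h x
    exact ⟨g • x, hg, mkQ_smul g x⟩
  rw [← h1]
  exact hK.image mkQ_continuous

theorem connectedSpace_quot [ConnectedSpace X] : ConnectedSpace (orbitRel.Quotient G X) :=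
  (mkQ_surjective (G := G) (X := X)).connectedSpace mkQ_continuous

/-- A central element of the group gives a central element of the fundamental group. -/
theorem center_quot [SimplyConnectedSpace X] (g : G) (hg : g ∈ Subgroup.center G) (hg1 : g ≠ 1)
    (q : orbitRel.Quotient G X) :
    ∃ γ ∈ Subgroup.center (FundamentalGroup (orbitRel.Quotient G X) q), γ ≠ 1 := by
  obtain ⟨x, hx⟩ := mkQ_surjective q
  let e : (mkQ G : X → orbitRel.Quotient G X) ⁻¹' {q} := ⟨x, hx⟩
  let φ : FundamentalGroup (orbitRel.Quotient G X) q ≃* Gᵐᵒᵖ :=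
    (mkQ_covering (G := G) (X := X)).fundamentalGroupEquiv e
  refine ⟨φ.symm (MulOpposite.op g), ?_, ?_⟩
  · rw [Subgroup.mem_center_iff]
    intro h
    apply φ.injective
    rw [map_mul, map_mul, MulEquiv.apply_symm_apply]
    rw [Subgroup.mem_center_iff] at hg
    apply MulOpposite.unop_injective
    simp only [MulOpposite.unop_mul, MulOpposite.unop_op]
    exact (hg _).symm
  · intro h
    apply hg1
    have h2 : φ (φ.symm (MulOpposite.op g)) = φ 1 := by rw [h]
    rw [MulEquiv.apply_symm_apply, map_one] at h2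
    exact MulOpposite.op_injective h2

end General

section Opens

variable {V : Type*} [NormedAddCommGroup V] [NormedSpace ℝ V] [FiniteDimensional ℝ V]
  {X : Opens V}
  {G : Type*} [Group G] [MulAction G X]
  [ProperlyDiscontinuousSMul G X] [ContinuousConstSMul G X] [IsCancelSMul G X]
  [LocallyCompactSpace X]

/-- Action on an open subset of a vector space by smooth maps. -/
theorem contMDiff_smul_opens {F : G → V → V} (hF : ∀ g (x : X), ((g • x : X) : V) = F g x)
    (hFs : ∀ g, ContDiffOn ℝ ∞ (F g) X) (g : G) :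
    ContMDiff 𝓘(ℝ, V) 𝓘(ℝ, V) ∞ (fun x : X => g • x) := by
  rw [← ContMDiff.subtypeVal_comp_iff]
  have h1 : (Subtype.val ∘ fun x : X => g • x) = fun x : X => F g x := by
    funext x
    exact hF g x
  rw [h1]
  intro x
  have h2 : ContMDiffAt 𝓘(ℝ, V) 𝓘(ℝ, V) ∞ (F g) (x : V) :=
    ((hFs g).contDiffAt (X.isOpen.mem_nhds x.2)).contMDiffAt
  exact h2.comp x (contMDiff_subtype_val x)

end Opens

end

end Pool.Agent.MP_f1864b_gt
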