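import Pool.Agent.Lib.MP_f1864b_gt.G.Quot3

set_option autoImplicit false
set_option linter.unusedSectionVars false

/-!
# Quotients of an open subset of a vector space: orientation, derivative at fixed points
-/

namespace Pool.Agent.MP_f1864b_gt

open Set Filter Topology MulAction TopologicalSpace
open scoped Manifold ContDiff

noncomputable section

section Opens

variable {V : Type*} [NormedAddCommGroup V] [NormedSpace ℝ V] [FiniteDimensional ℝ V]
  {X : Opens V}

theorem chartAt_opens_coe (x n : X) : (chartAt V x) n = (n : V) := rfl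

theorem chartAt_opens_source (x : X) : (chartAt V x).source = univ := by
  simp [Opens.chartAt_eq]

theorem chartAt_opens_symm {x : X} {y : V} (hy : y ∈ (chartAt V x).target) :
    (((chartAt V x).symm y : X) : V) = y := by
  have := (chartAt V x).right_inv hy
  rwa [chartAt_opens_coe] at this

theorem chartAt_opens_target {x : X} {y : V} : y ∈ (chartAt V x).target ↔ y ∈ X := by
  constructor
  · intro hy
    rw [← chartAt_opens_symm hy]
    exact ((chartAt V x).symm y).2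
  · intro hy
    have h1 : (⟨y, hy⟩ : X) ∈ (chartAt V x).source := by
      rw [chartAt_opens_source]
      exact mem_univ _
    exact (chartAt V x).map_source h1

theorem mfderiv_val (x : X) : mfderiv 𝓘(ℝ, V) 𝓘(ℝ, V) (Subtype.val : X → V) x =
    ContinuousLinearMap.id ℝ V := by
  have h1 : MDifferentiableAt 𝓘(ℝ, V) 𝓘(ℝ, V) (Subtype.val : X → V) x :=
    (contMDiff_subtype_val (n := 1) x).mdifferentiableAt one_ne_zero
  rw [mfderiv, if_pos h1]
  have h2 : writtenInExtChartAt 𝓘(ℝ, V) 𝓘(ℝ, V) x (Subtype.val : X → V) =ᶠ[𝓝 (x : V)] id := by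
    filter_upwards [X.isOpen.mem_nhds x.2] with y hy
    have h3 : y ∈ (chartAt V x).target := chartAt_opens_target.2 hy
    simp only [writtenInExtChartAt, Function.comp_apply, id]
    exact chartAt_opens_symm h3
  simp only [modelWithCornersSelf_coe, range_id, fderivWithin_univ]
  have h4 : extChartAt 𝓘(ℝ, V) x x = (x : V) := rfl
  rw [h4, h2.fderiv_eq]
  exact fderiv_id

variable {G : Type*} [Group G] [MulAction G X]
  [ProperlyDiscontinuousSMul G X] [ContinuousConstSMul G X] [IsCancelSMul G X]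
  [LocallyCompactSpace X]

/-- The transition maps of the quotient are given by elements of the group. -/
theorem transition_quot {F : G → V → V} (hF : ∀ g (x : X), ((g • x : X) : V) = F g x) (x x' : X)
    {y : V} (hy : y ∈ (((linv G x).trans (chartAt V x)).symm.trans
      ((linv G x').trans (chartAt V x'))).source) :
    ∃ g : G, y ∈ X ∧ ((((linv G x).trans (chartAt V x)).symm.trans
      ((linv G x').trans (chartAt V x'))) : V → V) =ᶠ[𝓝 y] F g := by
  set e := (linv G x).trans (chartAt V x) with he0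
  set e' := (linv G x').trans (chartAt V x') with he0'
  have hy1 : y ∈ e.target := hy.1
  have hy2 : e.symm y ∈ e'.source := hy.2
  set m := (chartAt V x).symm y with hm
  have hyc : y ∈ (chartAt V x).target := by
    have := hy1
    rw [he0, OpenPartialHomeomorph.trans_target] at this
    exact this.1
  have hsy : ∀ y', e.symm y' = mkQ G ((chartAt V x).symm y') := by
    intro y'
    rw [he0, OpenPartialHomeomorph.coe_trans_symm]
    change (linv G x).symm _ = _
    rw [linv_symm]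
  rw [hsy] at hy2
  have hy3 : mkQ G m ∈ (linv G x').source := by
    have := hy2
    rw [he0', OpenPartialHomeomorph.trans_source] at this
    exact this.1
  obtain ⟨g, hg, hev⟩ := linv_mkQ_eventually hy3
  refine ⟨g, chartAt_opens_target.1 hyc, ?_⟩
  have hcont : ContinuousAt (chartAt V x).symm y := (chartAt V x).symm.continuousAt hyc
  filter_upwards [hcont.eventually hev, (chartAt V x).open_target.mem_nhds hyc] with y' hy' hy''
  change e' (e.symm y') = _
  rw [hsy, he0']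
  change (chartAt V x') (linv G x' _) = _
  rw [hy', chartAt_opens_coe, hF, chartAt_opens_symm hy'']

/-- The quotient has an oriented atlas if the group acts with positive Jacobians. -/
theorem det_pos_quot {F : G → V → V} (hF : ∀ g (x : X), ((g • x : X) : V) = F g x)
    (hdet : ∀ g, ∀ x ∈ X, 0 < (fderiv ℝ (F g) x).det)
    {e e' : OpenPartialHomeomorph (orbitRel.Quotient G X) V}
    (he : e ∈ atlas V (orbitRel.Quotient G X)) (he' : e' ∈ atlas V (orbitRel.Quotient G X))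
    {y : V} (hy : y ∈ (e.symm.trans e').source) : 0 < (fderiv ℝ (e.symm.trans e') y).det := by
  obtain ⟨x, rfl⟩ := mem_atlas_quot he
  obtain ⟨x', rfl⟩ := mem_atlas_quot he'
  obtain ⟨g, hyX, hg⟩ := transition_quot hF x x' hy
  rw [hg.fderiv_eq]
  exact hdet g y hyX

/-- The derivative at a fixed point of the map of the quotient induced by an equivariant map. -/
theorem mfderiv_fixed {F : G → V → V} (hF : ∀ g (x : X), ((g • x : X) : V) = F g x)
    (hFs : ∀ g, ContDiffOn ℝ ∞ (F g) X)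
    {τ : orbitRel.Quotient G X → orbitRel.Quotient G X} {T : X → X} {T' : V → V}
    (hT : ∀ x : X, (T x : V) = T' x) {x : X} (hτ : ∀ y : X, τ (mkQ G y) = mkQ G (T y))
    (hx : T x = x) (hT' : ContDiffAt ℝ ∞ T' x) :
    ∃ A : V ≃L[ℝ] V, (mfderiv 𝓘(ℝ, V) 𝓘(ℝ, V) τ (mkQ G x) : V → V) =
      fun v => A.symm (fderiv ℝ T' x (A v)) := by
  have hsm := contMDiff_smul_opens hF hFs
  have hfix : τ (mkQ G x) = mkQ G x := by rw [hτ, hx]
  -- `T` is smooth at `x`
  have hTs : ContMDiffAt 𝓘(ℝ, V) 𝓘(ℝ, V) ∞ T x := by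
    rw [← ContMDiffAt.subtypeVal_comp_iff]
    have h1 : (Subtype.val ∘ T) = fun y : X => T' y := by
      funext y
      exact hT y
    rw [h1]
    exact (hT'.contMDiffAt).comp x (contMDiff_subtype_val x)
  have hτs : ContMDiffAt 𝓘(ℝ, V) 𝓘(ℝ, V) ∞ τ (mkQ G x) := by
    refine contMDiffAt_of_comp_mkQ hsm ?_
    have h1 : (fun y => τ (mkQ G y)) = fun y : X => mkQ G (T y) := by
      funext y
      exact hτ y
    rw [h1]
    exact ((contMDiff_mkQ hsm) (T x)).comp x hTs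
  set ψ : orbitRel.Quotient G X → V := fun q => ((linv G x q : X) : V) with hψ
  have hls : ContMDiffAt 𝓘(ℝ, V) 𝓘(ℝ, V) ∞ (linv G x) (mkQ G x) :=
    contMDiffAt_linv hsm (mem_linv_source x)
  have hlx : linv G x (mkQ G x) = x := linv_mkQ (mem_linv_target x)
  have hψs : ContMDiffAt 𝓘(ℝ, V) 𝓘(ℝ, V) ∞ ψ (mkQ G x) :=
    (contMDiff_subtype_val _).comp (mkQ G x) hls
  have hψx : ψ (mkQ G x) = x := by rw [hψ]; exact congrArg _ hlx
  have hmd : MDifferentiableAt 𝓘(ℝ, V) 𝓘(ℝ, V) ψ (mkQ G x) :=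
    hψs.mdifferentiableAt (by simp)
  have hmτ : MDifferentiableAt 𝓘(ℝ, V) 𝓘(ℝ, V) τ (mkQ G x) :=
    hτs.mdifferentiableAt (by simp)
  have hml : MDifferentiableAt 𝓘(ℝ, V) 𝓘(ℝ, V) (linv G x) (mkQ G x) :=
    hls.mdifferentiableAt (by simp)
  -- the derivative of `ψ` is injective
  have hinj : Function.Injective (mfderiv 𝓘(ℝ, V) 𝓘(ℝ, V) ψ (mkQ G x)) := by
    have h1 : mfderiv 𝓘(ℝ, V) 𝓘(ℝ, V) ψ (mkQ G x) =
        (mfderiv 𝓘(ℝ, V) 𝓘(ℝ, V) (Subtype.val : X → V) (linv G x (mkQ G x))).comp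
          (mfderiv 𝓘(ℝ, V) 𝓘(ℝ, V) (linv G x) (mkQ G x)) :=
      mfderiv_comp (mkQ G x)
        ((contMDiff_subtype_val (n := 1) _).mdifferentiableAt one_ne_zero) hml
    have h2 : mfderiv 𝓘(ℝ, V) 𝓘(ℝ, V) (fun q => mkQ G (linv G x q)) (mkQ G x) =
        (mfderiv 𝓘(ℝ, V) 𝓘(ℝ, V) (mkQ G) (linv G x (mkQ G x))).comp
          (mfderiv 𝓘(ℝ, V) 𝓘(ℝ, V) (linv G x) (mkQ G x)) :=
      mfderiv_comp (mkQ G x)
        ((contMDiff_mkQ hsm _).mdifferentiableAt (by simp)) hml
    have h3 : (fun q => mkQ G (linv G x q)) =ᶠ[𝓝 (mkQ G x)] id := by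
      filter_upwards [(linv G x).open_source.mem_nhds (mem_linv_source (G := G) x)] with q hq
      exact mkQ_linv hq
    rw [h3.mfderiv_eq, mfderiv_id] at h2
    intro v w hvw
    have h4 : (mfderiv 𝓘(ℝ, V) 𝓘(ℝ, V) (linv G x) (mkQ G x)) v =
        (mfderiv 𝓘(ℝ, V) 𝓘(ℝ, V) (linv G x) (mkQ G x)) w := by
      rw [h1, mfderiv_val] at hvw
      exact hvw
    have h5 := congrArg
      (fun u => (mfderiv 𝓘(ℝ, V) 𝓘(ℝ, V) (mkQ G) (linv G x (mkQ G x))) u) h4
    have h6 := DFunLike.congr_fun h2 v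
    have h7 := DFunLike.congr_fun h2 w
    exact h6.trans (h5.trans h7.symm)
  -- the relation
  have hrel : (fun q => ψ (τ q)) =ᶠ[𝓝 (mkQ G x)] fun q => T' (ψ q) := by
    have h1 : ContinuousAt (fun q => T (linv G x q)) (mkQ G x) := by
      have h2 : ContinuousAt T (linv G x (mkQ G x)) := by
        rw [hlx]
        exact hTs.continuousAt
      exact h2.comp hls.continuousAt
    have h3 : ∀ᶠ q in 𝓝 (mkQ G x), T (linv G x q) ∈ (linv G x).target := by
      refine h1.eventually_mem ((linv G x).open_target.mem_nhds ?_)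
      rw [hlx, hx]
      exact mem_linv_target x
    filter_upwards [h3, (linv G x).open_source.mem_nhds (mem_linv_source (G := G) x)] with q hq hq'
    change ((linv G x (τ q) : X) : V) = T' ((linv G x q : X) : V)
    rw [← hT]
    congr 1
    conv_lhs => rw [← mkQ_linv hq', hτ]
    exact linv_mkQ hq
  have hchain1 : mfderiv 𝓘(ℝ, V) 𝓘(ℝ, V) (fun q => ψ (τ q)) (mkQ G x) =
      (mfderiv 𝓘(ℝ, V) 𝓘(ℝ, V) ψ (τ (mkQ G x))).comp
        (mfderiv 𝓘(ℝ, V) 𝓘(ℝ, V) τ (mkQ G x)) :=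
    mfderiv_comp (mkQ G x) (by rw [hfix]; exact hmd) hmτ
  have hchain2 : mfderiv 𝓘(ℝ, V) 𝓘(ℝ, V) (fun q => T' (ψ q)) (mkQ G x) =
      (mfderiv 𝓘(ℝ, V) 𝓘(ℝ, V) T' (ψ (mkQ G x))).comp
        (mfderiv 𝓘(ℝ, V) 𝓘(ℝ, V) ψ (mkQ G x)) :=
    mfderiv_comp (mkQ G x)
      (by rw [hψx]; exact (hT'.contMDiffAt).mdifferentiableAt (by simp)) hmd
  rw [hrel.mfderiv_eq] at hchain1
  let Dψ : V →L[ℝ] V := mfderiv 𝓘(ℝ, V) 𝓘(ℝ, V) ψ (mkQ G x)
  let Dl : V →ₗ[ℝ] V := Dψ.toLinearMap
  have hinj' : Function.Injective Dl := hinj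
  have hB : Function.Bijective Dl :=
    ⟨hinj', (LinearMap.injective_iff_surjective (f := Dl)).1 hinj'⟩
  let A : V ≃L[ℝ] V := (LinearEquiv.ofBijective Dl hB).toContinuousLinearEquiv
  have hA : ∀ v, A v = (mfderiv 𝓘(ℝ, V) 𝓘(ℝ, V) ψ (mkQ G x) : V →L[ℝ] V) v := fun v => rfl
  refine ⟨A, ?_⟩
  funext v
  apply A.injective
  rw [ContinuousLinearEquiv.apply_symm_apply, hA, hA]
  have h8 := DFunLike.congr_fun (hchain1.symm.trans hchain2) v
  have h9 : (mfderiv 𝓘(ℝ, V) 𝓘(ℝ, V) ψ (τ (mkQ G x)) : V →L[ℝ] V) =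
      (mfderiv 𝓘(ℝ, V) 𝓘(ℝ, V) ψ (mkQ G x) : V →L[ℝ] V) := by
    rw [hfix]
  have h10 : (mfderiv 𝓘(ℝ, V) 𝓘(ℝ, V) T' (ψ (mkQ G x)) : V →L[ℝ] V) = fderiv ℝ T' x := by
    rw [hψx, mfderiv_eq_fderiv]
  have h11 := DFunLike.congr_fun h9 ((mfderiv 𝓘(ℝ, V) 𝓘(ℝ, V) τ (mkQ G x) : V →L[ℝ] V) v)
  have h12 := DFunLike.congr_fun h10 ((mfderiv 𝓘(ℝ, V) 𝓘(ℝ, V) ψ (mkQ G x) : V →L[ℝ] V) v)
  exact h11.symm.trans (h8.trans h12)

end Opens

end

end Pool.Agent.MP_f1864b_gt
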