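import Pool.Agent.Lib.MP_f1864b_gt.G.Quot4
import Pool.Agent.Lib.MP_f1864b_gt.G.BA1a
import Pool.Agent.Lib.MP_f1864b_gt.G.BA1b
import Pool.Agent.Lib.MP_f1864b_gt.G.BA2
import Pool.Agent.Lib.MP_f1864b_gt.G.BA3
import Pool.Agent.Lib.MP_f1864b_gt.G.DetPos

set_option autoImplicit false
set_option linter.unusedSectionVars false

/-!
# The space `Ball × ℝ` and the group
-/

namespace Pool.Agent.MP_f1864b_gt

open Matrix Complex Topology Set Filter TopologicalSpace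
open scoped Manifold ContDiff

noncomputable section

/-- Complex `3 × 3` matrices. -/
abbrev M3 := Matrix (Fin 3) (Fin 3) ℂ

/-- `ℝ⁵`. -/
abbrev V5 := EuclideanSpace ℝ (Fin 5)

/-- The coordinates `ℝ⁵ = ℂ² × ℝ`. -/
def le5 : V5 ≃ₗ[ℝ] (ℂ × ℂ) × ℝ where
  toFun x := ((⟨x 0, x 1⟩, ⟨x 2, x 3⟩), x 4)
  invFun p := !₂[p.1.1.re, p.1.1.im, p.1.2.re, p.1.2.im, p.2]
  map_add' x y := by
    refine Prod.ext (Prod.ext ?_ ?_) ?_
    · apply Complex.ext <;> simp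
    · apply Complex.ext <;> simp
    · simp
  map_smul' c x := by
    refine Prod.ext (Prod.ext ?_ ?_) ?_
    · apply Complex.ext <;> simp
    · apply Complex.ext <;> simp
    · simp
  left_inv x := by
    ext i
    fin_cases i <;> simp
  right_inv p := by
    refine Prod.ext (Prod.ext ?_ ?_) ?_
    · apply Complex.ext <;> simp
    · apply Complex.ext <;> simp
    · simp

/-- The coordinates `ℝ⁵ = ℂ² × ℝ`. -/
def cle5 : V5 ≃L[ℝ] (ℂ × ℂ) × ℝ := le5.toContinuousLinearEquiv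

/-- The open subset `Ball × ℝ` of `ℝ⁵`. -/
def XB : Opens V5 := ⟨{x | (cle5 x).1 ∈ Ball},
  isOpen_Ball.preimage (continuous_fst.comp cle5.continuous)⟩

theorem mem_XB {x : V5} : x ∈ XB ↔ (cle5 x).1 ∈ Ball := Iff.rfl

/-- The point of `Ball × ℝ` with given coordinates. -/
def pt (w : ℂ × ℂ) (hw : w ∈ Ball) (r : ℝ) : XB := ⟨cle5.symm (w, r), by
  rw [mem_XB, ContinuousLinearEquiv.apply_symm_apply]
  exact hw⟩

theorem cle5_pt (w : ℂ × ℂ) (hw : w ∈ Ball) (r : ℝ) : cle5 (pt w hw r) = (w, r) :=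
  ContinuousLinearEquiv.apply_symm_apply _ _

theorem convex_XB : Convex ℝ (XB : Set V5) := by
  intro x hx y hy a b ha hb hab
  have h1 : (cle5 (a • x + b • y)).1 = a • (cle5 x).1 + b • (cle5 y).1 := by
    rw [map_add, map_smul, map_smul]
    rfl
  change (cle5 (a • x + b • y)).1 ∈ Ball
  rw [h1]
  exact convex_Ball hx hy ha hb hab

theorem zero_mem_Ball : (0 : ℂ × ℂ) ∈ Ball := by
  have := rho_pos
  simp [Ball]
  exact this

instance : Nonempty XB := ⟨pt 0 zero_mem_Ball 0⟩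

theorem XB_nonempty : (XB : Set V5).Nonempty :=
  ⟨((pt 0 zero_mem_Ball 0 : XB) : V5), Subtype.coe_prop (pt 0 zero_mem_Ball 0)⟩

theorem contractible_set_XB : ContractibleSpace ((XB : Set V5) : Type) :=
  Convex.contractibleSpace convex_XB XB_nonempty

/-- `XB` as a subtype of its underlying set. -/
def homeoXB : XB ≃ₜ ((XB : Set V5) : Type) :=
  Homeomorph.subtype (Homeomorph.refl V5) (fun _ => SetLike.mem_coe.symm)

instance contractible_XB : ContractibleSpace XB :=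
  homeoXB.contractibleSpace_iff.2 contractible_set_XB

/-- the conjugation `c ^ k` on `ℂ²` -/
def cpow (k : ℤ) (w : ℂ × ℂ) : ℂ × ℂ := if Even k then w else cw w

/-- the conjugation `c ^ k` on matrices -/
def cpowG (k : ℤ) (g : GL (Fin 3) ℂ) : GL (Fin 3) ℂ := if Even k then g else conjG g

theorem cw_cw (w : ℂ × ℂ) : cw (cw w) = w := by
  ext <;> simp [cw]

theorem conjG_conjG (g : GL (Fin 3) ℂ) : conjG (conjG g) = g := by
  ext i j
  rw [conjG_val, conjG_val]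
  simp [Matrix.map_apply]

theorem cpow_cpow (k l : ℤ) (w : ℂ × ℂ) : cpow k (cpow l w) = cpow (k + l) w := by
  unfold cpow
  by_cases h1 : Even k <;> by_cases h2 : Even l <;> simp [h1, h2, Int.even_add, cw_cw]

theorem cpow_neg (k : ℤ) (w : ℂ × ℂ) : cpow (-k) w = cpow k w := by
  simp [cpow]

theorem cpow_mem {k : ℤ} {w : ℂ × ℂ} (hw : w ∈ Ball) : cpow k w ∈ Ball := by
  unfold cpow
  split_ifs
  · exact hw
  · exact cw_mem_Ball hw

theorem cpow_act (k : ℤ) (g : GL (Fin 3) ℂ) (w : ℂ × ℂ) :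
    cpow k (act g.1 w) = act (cpowG k g).1 (cpow k w) := by
  unfold cpow cpowG
  split_ifs
  · rfl
  · rw [cw_act, conjG_val]

/-- The map `(w, r) ↦ (g • c^k w, r + k)` in coordinates. -/
def elt (g : M3) (k : ℤ) (p : (ℂ × ℂ) × ℝ) : (ℂ × ℂ) × ℝ := (act g (cpow k p.1), p.2 + k)

/-- The map `(w, r) ↦ (g • c^k w, r + k)` on `ℝ⁵`. -/
def eltV (g : M3) (k : ℤ) (x : V5) : V5 := cle5.symm (elt g k (cle5 x))

theorem cle5_eltV (g : M3) (k : ℤ) (x : V5) : cle5 (eltV g k x) = elt g k (cle5 x) :=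
  ContinuousLinearEquiv.apply_symm_apply _ _

variable {Γ : Subgroup (GL (Fin 3) ℂ)}

theorem LatticeData.cpowG_mem (hΓ : LatticeData Γ) (k : ℤ) {g : GL (Fin 3) ℂ} (hg : g ∈ Γ) :
    cpowG k g ∈ Γ := by
  unfold cpowG
  split_ifs
  · exact hg
  · exact hΓ.conj_mem g hg

theorem eltV_mem (hΓ : LatticeData Γ) {g : GL (Fin 3) ℂ} (hg : g ∈ Γ) (k : ℤ) {x : V5}
    (hx : x ∈ XB) : eltV g.1 k x ∈ XB := by
  rw [mem_XB, cle5_eltV]
  exact act_mem_Ball (hΓ.unitary g hg) (cpow_mem hx)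

theorem elt_mul (hΓ : LatticeData Γ) {g h : GL (Fin 3) ℂ} (hh : h ∈ Γ) (k l : ℤ)
    {p : (ℂ × ℂ) × ℝ} (hp : p.1 ∈ Ball) :
    elt g.1 k (elt h.1 l p) = elt (g * cpowG k h).1 (k + l) p := by
  unfold elt
  simp only
  refine Prod.ext ?_ ?_
  · simp only
    rw [cpow_act, cpow_cpow, Units.val_mul, act_mul _ (hΓ.unitary _ (hΓ.cpowG_mem k hh))
      (cpow_mem hp)]
  · simp only
    push_cast
    ring

theorem elt_one (p : (ℂ × ℂ) × ℝ) : elt 1 0 p = p := by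
  unfold elt
  refine Prod.ext ?_ ?_
  · simp [cpow, act_one]
  · simp

/-- The group of the maps `(w, r) ↦ (g • c^k w, r + k)` of `Ball × ℝ`, `g ∈ Γ`, `k ∈ ℤ`. -/
def Gt (Γ : Subgroup (GL (Fin 3) ℂ)) (hΓ : LatticeData Γ) : Subgroup (Equiv.Perm XB) where
  carrier := {φ | ∃ g ∈ Γ, ∃ k : ℤ, ∀ x : XB, ((φ x : XB) : V5) = eltV g.1 k x}
  one_mem' := ⟨1, Γ.one_mem, 0, fun x => by
    apply cle5.injective
    rw [cle5_eltV]
    exact (elt_one _).symm⟩
  mul_mem' := by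
    rintro φ ψ ⟨g, hg, k, hφ⟩ ⟨h, hh, l, hψ⟩
    refine ⟨g * cpowG k h, Γ.mul_mem hg (hΓ.cpowG_mem k hh), k + l, fun x => ?_⟩
    rw [Equiv.Perm.mul_apply, hφ, hψ]
    apply cle5.injective
    rw [cle5_eltV, cle5_eltV, cle5_eltV]
    exact elt_mul hΓ hh k l x.2
  inv_mem' := by
    rintro φ ⟨g, hg, k, hφ⟩
    refine ⟨cpowG k g⁻¹, hΓ.cpowG_mem k (Γ.inv_mem hg), -k, fun x => ?_⟩
    -- check after applying `φ`
    have hmem : eltV (cpowG k g⁻¹).1 (-k) x ∈ XB :=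
      eltV_mem hΓ (hΓ.cpowG_mem k (Γ.inv_mem hg)) (-k) x.2
    have h1 : φ ⟨eltV (cpowG k g⁻¹).1 (-k) x, hmem⟩ = x := by
      apply Subtype.ext
      rw [hφ]
      apply cle5.injective
      rw [cle5_eltV]
      change elt g.1 k (cle5 (eltV (cpowG k g⁻¹).1 (-k) x)) = _
      rw [cle5_eltV, elt_mul hΓ (hΓ.cpowG_mem k (Γ.inv_mem hg)) k (-k) x.2]
      have h2 : cpowG k (cpowG k g⁻¹) = g⁻¹ := by
        unfold cpowG
        split_ifs
        · rfl
        · exact conjG_conjG _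
      rw [h2, mul_inv_cancel, add_neg_cancel]
      exact elt_one _
    have h3 : φ⁻¹ x = ⟨eltV (cpowG k g⁻¹).1 (-k) x, hmem⟩ := by
      rw [Equiv.Perm.inv_eq_iff_eq]
      exact h1.symm
    rw [h3]

theorem mem_Gt {hΓ : LatticeData Γ} {φ : Equiv.Perm XB} : φ ∈ Gt Γ hΓ ↔
    ∃ g ∈ Γ, ∃ k : ℤ, ∀ x : XB, ((φ x : XB) : V5) = eltV g.1 k x := Iff.rfl

/-- The element of the group given by `g` and `k`. -/
theorem exists_Gt (hΓ : LatticeData Γ) {g : GL (Fin 3) ℂ} (hg : g ∈ Γ) (k : ℤ) :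
    ∃ φ : Gt Γ hΓ, ∀ x : XB, ((φ • x : XB) : V5) = eltV g.1 k x := by
  let f : XB → XB := fun x => ⟨eltV g.1 k x, eltV_mem hΓ hg k x.2⟩
  have hmem : ∀ x : XB, eltV (cpowG k g⁻¹).1 (-k) x ∈ XB := fun x =>
    eltV_mem hΓ (hΓ.cpowG_mem k (Γ.inv_mem hg)) (-k) x.2
  let f' : XB → XB := fun x => ⟨eltV (cpowG k g⁻¹).1 (-k) x, hmem x⟩
  have h2 : cpowG k (cpowG k g⁻¹) = g⁻¹ := by
    unfold cpowG
    split_ifs
    · rfl
    · exact conjG_conjG _
  have hr : Function.RightInverse f' f := by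
    intro x
    apply Subtype.ext
    apply cle5.injective
    change cle5 (eltV g.1 k (eltV (cpowG k g⁻¹).1 (-k) x)) = _
    rw [cle5_eltV, cle5_eltV, elt_mul hΓ (hΓ.cpowG_mem k (Γ.inv_mem hg)) k (-k) x.2]
    rw [h2, mul_inv_cancel, add_neg_cancel]
    exact elt_one _
  have hl : Function.LeftInverse f' f := by
    intro x
    apply Subtype.ext
    apply cle5.injective
    change cle5 (eltV (cpowG k g⁻¹).1 (-k) (eltV g.1 k x)) = _
    rw [cle5_eltV, cle5_eltV, elt_mul hΓ hg (-k) k x.2]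
    have h3 : cpowG k g⁻¹ * cpowG (-k) g = 1 := by
      unfold cpowG
      simp only [even_neg]
      split_ifs
      · exact inv_mul_cancel g
      · rw [← map_mul, inv_mul_cancel, map_one]
    rw [h3, neg_add_cancel]
    exact elt_one _
  exact ⟨⟨⟨f, f', hl, hr⟩, g, hg, k, fun x => rfl⟩, fun x => rfl⟩

theorem smul_Gt {hΓ : LatticeData Γ} (φ : Gt Γ hΓ) :
    ∃ g ∈ Γ, ∃ k : ℤ, ∀ x : XB, ((φ • x : XB) : V5) = eltV g.1 k x := φ.2

end

end Pool.Agent.MP_f1864b_gt
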