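import Pool.Agent.Lib.MP_f1864b_gt.G.Space

set_option autoImplicit false
set_option linter.unusedSectionVars false

/-!
# The action of the group on `Ball × ℝ` is free, properly discontinuous and cocompact
-/

namespace Pool.Agent.MP_f1864b_gt

open Matrix Complex Topology Set Filter TopologicalSpace
open scoped Manifold ContDiff

noncomputable section

variable {Γ : Subgroup (GL (Fin 3) ℂ)}

theorem continuous_cw : Continuous cw := by
  unfold cw
  exact ((Complex.continuous_conj.comp continuous_fst).prodMk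
    (Complex.continuous_conj.comp continuous_snd))

theorem continuous_cpow (k : ℤ) : Continuous (cpow k) := by
  unfold cpow
  split_ifs
  · exact continuous_id
  · exact continuous_cw

theorem contDiff_cw : ContDiff ℝ ∞ cw := by
  unfold cw
  exact (Complex.conjCLE.contDiff.comp contDiff_fst).prodMk
    (Complex.conjCLE.contDiff.comp contDiff_snd)

theorem contDiff_cpow (k : ℤ) : ContDiff ℝ ∞ (cpow k) := by
  unfold cpow
  split_ifs
  · exact contDiff_id
  · exact contDiff_cw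

theorem contDiffOn_elt {g : M3} (hg : ∀ v, qf (g *ᵥ v) = qf v) (k : ℤ) :
    ContDiffOn ℝ ∞ (elt g k) {p | p.1 ∈ Ball} := by
  unfold elt
  refine ContDiffOn.prodMk ?_ ?_
  · refine (contDiffOn_act hg).comp ((contDiff_cpow k).comp contDiff_fst).contDiffOn ?_
    intro p hp
    exact cpow_mem hp
  · exact (contDiff_snd.add contDiff_const).contDiffOn

theorem contDiffOn_eltV {g : M3} (hg : ∀ v, qf (g *ᵥ v) = qf v) (k : ℤ) :
    ContDiffOn ℝ ∞ (eltV g k) XB := by
  unfold eltV
  refine cle5.symm.contDiff.comp_contDiffOn ?_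
  exact (contDiffOn_elt hg k).comp cle5.contDiff.contDiffOn fun x hx => hx

/-- The map of `ℝ⁵` which represents an element of the group. -/
def FG (hΓ : LatticeData Γ) (φ : Gt Γ hΓ) : V5 → V5 :=
  eltV (smul_Gt φ).choose.1 (smul_Gt φ).choose_spec.2.choose

theorem FG_spec (hΓ : LatticeData Γ) (φ : Gt Γ hΓ) :
    ∃ g ∈ Γ, ∃ k : ℤ, FG hΓ φ = eltV g.1 k ∧ ∀ x : XB, ((φ • x : XB) : V5) = FG hΓ φ x :=
  ⟨(smul_Gt φ).choose, (smul_Gt φ).choose_spec.1, (smul_Gt φ).choose_spec.2.choose, rfl,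
    (smul_Gt φ).choose_spec.2.choose_spec⟩

theorem FG_smul (hΓ : LatticeData Γ) (φ : Gt Γ hΓ) (x : XB) :
    ((φ • x : XB) : V5) = FG hΓ φ x := by
  obtain ⟨g, hg, k, -, h⟩ := FG_spec hΓ φ
  exact h x

theorem FG_contDiffOn (hΓ : LatticeData Γ) (φ : Gt Γ hΓ) : ContDiffOn ℝ ∞ (FG hΓ φ) XB := by
  obtain ⟨g, hg, k, h, -⟩ := FG_spec hΓ φ
  rw [h]
  exact contDiffOn_eltV (hΓ.unitary g hg) k

instance locallyCompact_XB : LocallyCompactSpace XB := XB.isOpen.locallyCompactSpace

instance continuousConstSMul_Gt (hΓ : LatticeData Γ) : ContinuousConstSMul (Gt Γ hΓ) XB where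
  continuous_const_smul φ := by
    have h1 : Continuous fun x : XB => FG hΓ φ x :=
      (FG_contDiffOn hΓ φ).continuousOn.comp_continuous continuous_subtype_val (fun x => x.2)
    refine Continuous.congr (h1.subtype_mk fun x => ?_) fun x => ?_
    · rw [← FG_smul]
      exact (φ • x).2
    · exact Subtype.ext (FG_smul hΓ φ x).symm

theorem elt_fixed (hΓ : LatticeData Γ) {g : GL (Fin 3) ℂ} (hg : g ∈ Γ) {k : ℤ}
    {p : (ℂ × ℂ) × ℝ} (hp : p.1 ∈ Ball) (h : elt g.1 k p = p) : g = 1 ∧ k = 0 := by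
  unfold elt at h
  have h2 := congrArg Prod.snd h
  simp only at h2
  have hk : k = 0 := by
    have : (k : ℝ) = 0 := by linarith
    exact_mod_cast this
  subst hk
  have h1 := congrArg Prod.fst h
  simp only at h1
  have h3 : cpow 0 p.1 = p.1 := by simp [cpow]
  rw [h3] at h1
  exact ⟨hΓ.free g hg p.1 hp h1, rfl⟩

instance isCancelSMul_Gt (hΓ : LatticeData Γ) : IsCancelSMul (Gt Γ hΓ) XB := by
  rw [isCancelSMul_iff_eq_one_of_smul_eq]
  intro φ x hx
  obtain ⟨g, hg, k, h⟩ := smul_Gt φ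
  have h1 : eltV g.1 k x = x := by rw [← h, hx]
  have h2 : elt g.1 k (cle5 x) = cle5 x := by rw [← cle5_eltV, h1]
  obtain ⟨rfl, rfl⟩ := elt_fixed hΓ hg x.2 h2
  apply Subtype.ext
  apply Equiv.ext
  intro y
  apply Subtype.ext
  refine (h y).trans ?_
  apply cle5.injective
  rw [cle5_eltV]
  exact elt_one _

instance properlyDiscontinuous_Gt (hΓ : LatticeData Γ) :
    ProperlyDiscontinuousSMul (Gt Γ hΓ) XB where
  finite_disjoint_inter_image := by
    intro K L hK hL
    -- the compact set of the ball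
    set P : Set XB := K ∪ L with hP
    have hPc : IsCompact P := hK.union hL
    set f : XB → (ℂ × ℂ) × ℝ := fun x => cle5 x with hf
    have hfc : Continuous f := cle5.continuous.comp continuous_subtype_val
    set B1 : Set (ℂ × ℂ) := (fun x => (f x).1) '' P with hB1
    have hB1c : IsCompact B1 := hPc.image (continuous_fst.comp hfc)
    set B : Set (ℂ × ℂ) := B1 ∪ cw '' B1 with hB
    have hBc : IsCompact B := hB1c.union (hB1c.image continuous_cw)
    have hB1s : B1 ⊆ Ball := by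
      rintro _ ⟨x, -, rfl⟩
      exact x.2
    have hBs : B ⊆ Ball := by
      rintro w (hw | ⟨w', hw', rfl⟩)
      · exact hB1s hw
      · exact cw_mem_Ball (hB1s hw')
    have hfin := hΓ.discontinuous B hBs hBc
    -- the bound for `k`
    have hRc : IsCompact ((fun x => (f x).2) '' P) := hPc.image (continuous_snd.comp hfc)
    obtain ⟨R, hR⟩ := hRc.isBounded.exists_norm_le
    have hkfin : {k : ℤ | |(k : ℝ)| ≤ 2 * R}.Finite := by
      refine (Set.finite_Icc (-⌈2 * R⌉) ⌈2 * R⌉).subset ?_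
      intro k hk
      simp only [mem_setOf_eq, abs_le] at hk
      have h1 : (k : ℝ) ≤ ⌈2 * R⌉ := hk.2.trans (Int.le_ceil _)
      have h2 : -(⌈2 * R⌉ : ℝ) ≤ k := by
        have := Int.le_ceil (2 * R)
        linarith [hk.1]
      constructor
      · exact_mod_cast h2
      · exact_mod_cast h1
    -- the elements are determined by `g` and `k`
    have hfin2 := hfin.prod hkfin
    have hinj : ∀ φ ψ : Gt Γ hΓ, ∀ g : GL (Fin 3) ℂ, ∀ k : ℤ,
        (∀ x : XB, ((φ • x : XB) : V5) = eltV g.1 k x) →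
        (∀ x : XB, ((ψ • x : XB) : V5) = eltV g.1 k x) → φ = ψ := by
      intro φ ψ g k h1 h2
      apply Subtype.ext
      apply Equiv.ext
      intro x
      apply Subtype.ext
      exact (h1 x).trans (h2 x).symm
    choose gg hgg kk hkk using fun φ : Gt Γ hΓ => smul_Gt φ
    refine Set.Finite.of_finite_image (f := fun φ : Gt Γ hΓ => (gg φ, kk φ)) ?_ ?_
    · refine hfin2.subset ?_
      rintro _ ⟨φ, hφ, rfl⟩
      obtain ⟨y, ⟨x, hxK, hxy⟩, hyL⟩ := hφ
      have hxy' : φ • x = y := hxy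
      have h1 : f y = elt (gg φ).1 (kk φ) (f x) := by
        rw [hf]
        simp only
        rw [← hxy', hkk φ x, cle5_eltV]
      have hxB : (f x).1 ∈ B1 := ⟨x, Or.inl hxK, rfl⟩
      have hyB : (f y).1 ∈ B1 := ⟨y, Or.inr hyL, rfl⟩
      refine ⟨⟨hgg φ, cpow (kk φ) (f x).1, ?_, ?_⟩, ?_⟩
      · unfold cpow
        split_ifs
        · exact Or.inl hxB
        · exact Or.inr ⟨_, hxB, rfl⟩
      · have h2 : act (gg φ).1 (cpow (kk φ) (f x).1) = (f y).1 := by
          rw [h1]
          rfl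
        simp only
        rw [h2]
        exact Or.inl hyB
      · have h3 : (f y).2 = (f x).2 + kk φ := by
          rw [h1]
          rfl
        have h4 := hR _ ⟨x, Or.inl hxK, rfl⟩
        have h5 := hR _ ⟨y, Or.inr hyL, rfl⟩
        simp only [Real.norm_eq_abs] at h4 h5
        simp only [mem_setOf_eq]
        have h6 : (kk φ : ℝ) = (f y).2 - (f x).2 := by linarith
        rw [h6]
        have := abs_sub (f y).2 (f x).2
        linarith
    · intro φ _ ψ _ hφψ
      simp only [Prod.mk.injEq] at hφψ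
      refine hinj φ ψ (gg φ) (kk φ) (hkk φ) ?_
      rw [hφψ.1, hφψ.2]
      exact hkk ψ

theorem exists_compact_Gt (hΓ : LatticeData Γ) :
    ∃ K : Set XB, IsCompact K ∧ ∀ x : XB, ∃ φ : Gt Γ hΓ, φ • x ∈ K := by
  obtain ⟨K0, hK0, hK0c, hcov⟩ := hΓ.cocompact
  refine ⟨{x : XB | cle5 x ∈ K0 ×ˢ Icc (0 : ℝ) 1}, ?_, ?_⟩
  · rw [Topology.IsEmbedding.subtypeVal.isCompact_iff]
    have h1 : Subtype.val '' {x : XB | cle5 x ∈ K0 ×ˢ Icc (0 : ℝ) 1} =
        cle5 ⁻¹' (K0 ×ˢ Icc (0 : ℝ) 1) := by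
      ext x
      constructor
      · rintro ⟨y, hy, rfl⟩
        exact hy
      · intro hx
        exact ⟨⟨x, hK0 hx.1⟩, hx, rfl⟩
    rw [h1]
    have h2 := (hK0c.prod (isCompact_Icc (a := (0 : ℝ)) (b := 1))).image cle5.symm.continuous
    have h3 : cle5.symm '' (K0 ×ˢ Icc (0 : ℝ) 1) = cle5 ⁻¹' (K0 ×ˢ Icc (0 : ℝ) 1) := by
      ext x
      constructor
      · rintro ⟨y, hy, rfl⟩
        rw [mem_preimage, ContinuousLinearEquiv.apply_symm_apply]
        exact hy
      · intro hx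
        exact ⟨cle5 x, hx, ContinuousLinearEquiv.symm_apply_apply _ _⟩
    rw [← h3]
    exact h2
  · intro x
    set k : ℤ := -⌊(cle5 (x : V5)).2⌋ with hk
    obtain ⟨g, hg, hgK⟩ := hcov (cpow k (cle5 (x : V5)).1) (cpow_mem x.2)
    obtain ⟨φ, hφ⟩ := exists_Gt hΓ hg k
    refine ⟨φ, ?_⟩
    simp only [mem_setOf_eq]
    rw [hφ, cle5_eltV]
    refine ⟨hgK, ?_⟩
    change (cle5 (x : V5)).2 + (k : ℝ) ∈ Icc (0 : ℝ) 1
    rw [hk]
    push_cast
    have h1 := Int.floor_le (cle5 (x : V5)).2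
    have h2 := Int.lt_floor_add_one (cle5 (x : V5)).2
    constructor <;> linarith

end

end Pool.Agent.MP_f1864b_gt
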